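import Pool.Agent.Y958.TC.Two

/-!
Library E8helper83.WS (helper83): the two point theorem, windowed form: below every large number `M` there is a
good scale `M / p` with `p` a bounded prime close to a power of `4`. Adapted from `Pool.Agent.Y958.TC.two`
(helper958).
-/

set_option autoImplicit false

namespace Pool.Agent.E8helper83.WS

open Finset Filter Topology
open Pool.Agent.TH112.BL (Bd QD win)
open Pool.Agent.TH823.MRS (ExpoSmall FlipAll)
open Pool.Agent.Y958.TC (Av Av_bd um um_tendsto sS sS_tendsto alp alp_f alp_mod iv iv_spec iv_lt per_congr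
  per_mod Df b1 bad_sum dec QDp mrs3 exists_ultra)
open Pool.Agent.Y958.U (S_PW)

/-- good scales of an ultrafilter: the core of the proof of `Pool.Agent.Y958.TC.two` -/
theorem scale_bound (f : ℕ → ℤ) (hb : ∀ n, |f n| ≤ 1) (hf : FlipAll f)
    (hE : ExpoSmall (fun n => (f n : ℂ))) (h : ℕ) (hh : 1 ≤ h) (q : ℕ) (hq : 1 ≤ q) (w : ℕ → ℝ)
    (hw1 : ∀ n, |w n| ≤ 1) (hwq : ∀ n, w (n + q) = w n) (ε : ℝ) (hε0 : 0 < ε) :
    ∃ I : ℕ, ∀ i : ℕ, I ≤ i → ∀ (𝓤 : Ultrafilter ℕ) (hU : (𝓤 : Filter ℕ) ≤ atTop),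
      haveI : NeZero q := ⟨by omega⟩
      Df (um 𝓤 hU) (alp f q) b1 () (2 * (1 + h)) i ≤ ((ε / 30) * ε / 3) * 2 ^ i / i →
      ∑ p ∈ QD i (i + 1), Real.log p / 2 ^ i * |sS 𝓤 (fun n => w n * f n * f (n + h)) p| ≤ 3 * ε := by
  classical
  have hfr : ∀ n, |(f n : ℝ)| ≤ 1 := by
    intro n; exact_mod_cast hb n
  haveI : NeZero q := ⟨by omega⟩
  obtain ⟨I₁, hM3⟩ := mrs3 f hb hE h hh q (ε / 20) (by positivity)
  set η : ℝ := (ε / 30) * ε / 3 with hη
  have hη0 : 0 < η := by positivity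
  have hlim : Tendsto (fun i : ℕ => (i : ℝ) / 2 ^ i) atTop (𝓝 0) := by
    have := tendsto_pow_const_div_const_pow_of_one_lt 1 (show (1 : ℝ) < 2 by norm_num)
    simpa using this
  have hlim2 : Tendsto (fun i : ℕ => (12 : ℝ) / 2 ^ i) atTop (𝓝 0) := by
    have h1 := tendsto_pow_const_div_const_pow_of_one_lt 0 (show (1 : ℝ) < 2 by norm_num)
    have h2 := h1.const_mul 12
    simp only [pow_zero, mul_zero] at h2
    refine h2.congr fun i => ?_
    ring
  obtain ⟨I₂, hI₂⟩ := eventually_atTop.1 (hlim.eventually_lt_const hη0)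
  obtain ⟨I₃, hI₃⟩ := eventually_atTop.1 (hlim2.eventually_lt_const hε0)
  set c : ℕ := 2 * (1 + h) with hc
  refine ⟨I₁ + I₂ + I₃ + q + 1, fun i hi 𝓤 hU => ?_⟩
  intro hD
  set ψ : ℕ → ℝ := fun n => w n * f n * f (n + h) with hψd
  have hψ : ∀ n, |ψ n| ≤ 1 := by
    intro n
    rw [hψd]
    simp only
    rw [abs_mul, abs_mul]
    calc |w n| * |(f n : ℝ)| * |(f (n + h) : ℝ)| ≤ 1 * 1 * 1 := by
          gcongr
          · exact hw1 n
          · exact hfr n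
          · exact hfr _
      _ = 1 := by norm_num
  have hw0 : ∀ i, ∀ p ∈ QD i (i + 1), 0 ≤ Real.log (p : ℝ) / 2 ^ i := fun i p _ =>
    div_nonneg (Real.log_natCast_nonneg _) (by positivity)
  set G : ℕ → ℕ → ℝ := fun p n => (f n : ℝ) * w (iv q p * n) * f (n + p * h) with hG
  have hG1 : ∀ p n, |G p n| ≤ 1 := by
    intro p n
    rw [hG]
    simp only
    rw [abs_mul, abs_mul]
    calc |(f n : ℝ)| * |w (iv q p * n)| * |(f (n + p * h) : ℝ)| ≤ 1 * 1 * 1 := by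
          gcongr
          · exact hfr n
          · exact hw1 _
          · exact hfr _
      _ = 1 := by norm_num
  have hqi : q < 2 ^ i := lt_of_le_of_lt (by omega : q ≤ i) Nat.lt_two_pow_self
  have hdec := dec 𝓤 hU (alp f q) c hε0 i (by omega) (hI₂ i (by omega)) hD G hG1 (by
    intro p hp n n' hwin j hj
    have hp2 : p ≤ 2 ^ (i + 1) := by
      unfold QD at hp
      rw [mem_filter, mem_Ioc] at hp
      exact hp.1.2
    have hidx : ∀ t, t < c * 2 ^ i → alp f q (n + t) = alp f q (n' + t) := by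
      intro t ht
      exact congrFun hwin ⟨t, ht⟩
    have h1 : j + p * h < c * 2 ^ i := by
      have h3 : p * (1 + h) ≤ 2 ^ (i + 1) * (1 + h) := Nat.mul_le_mul_right _ hp2
      have h4 : 2 ^ (i + 1) * (1 + h) = c * 2 ^ i := by rw [hc, pow_succ]; ring
      have h5 : p * (1 + h) = p + p * h := by ring
      omega
    have h2 : j < c * 2 ^ i := by omega
    have e1 := alp_f hb (hidx j h2)
    have e2 := alp_f hb (hidx (j + p * h) h1)
    have e3 := alp_mod (hidx j h2)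
    rw [hG]
    simp only
    rw [e1, add_assoc n j, e2, add_assoc n' j, per_congr hwq (Nat.ModEq.mul_left (iv q p) e3)])
    (univ : Finset (Fin 2)) ![0, h] 1 (by simp) ψ hψ (QD i (i + 1)) (Subset.refl _) (by
    intro p hp k hk
    have h0 : ¬ p ∣ k := by simpa using hk 0 (mem_univ _)
    have h1 : ¬ p ∣ k + h := by simpa using hk 1 (mem_univ _)
    have hpp := QDp hp
    have hcop : p.Coprime q := by
      rw [Nat.Prime.coprime_iff_not_dvd hpp]
      intro hd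
      have := Nat.le_of_dvd (by omega) hd
      unfold QD at hp
      rw [mem_filter, mem_Ioc] at hp
      omega
    have hiv := (iv_spec q p hq hcop).2
    rw [hG, hψd]
    simp only
    have e1 : w (iv q p * (p * k)) = w k := by
      apply per_congr hwq
      have := Nat.ModEq.mul_right k hiv
      rw [one_mul, mul_assoc] at this
      exact this
    rw [e1, hf p k hpp h0, show p * k + p * h = p * (k + h) by ring, hf p (k + h) hpp h1]
    push_cast
    ring)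
  have hmr := hM3 i (by omega) 𝓤 hU (fun l n => (f n : ℝ) * w (l * n)) (by
    intro l n
    rw [abs_mul]
    calc |(f n : ℝ)| * |w (l * n)| ≤ 1 * 1 := mul_le_mul (hfr n) (hw1 _) (abs_nonneg _) zero_le_one
      _ = 1 := one_mul 1) (fun p => ⟨iv q p, iv_lt q p hq⟩)
  simp only at hmr
  have h5 : (0 : ℝ) < 2 ^ i := by positivity
  have hI3 := hI₃ i (by omega)
  have h6 : ∑ p ∈ QD i (i + 1), Real.log p / 2 ^ i * |sS 𝓤 ψ p| ≤
      ∑ p ∈ QD i (i + 1), (Real.log p / 2 ^ i * |1 * sS 𝓤 ψ p - (um 𝓤 hU).m (G p)| +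
        Real.log p / 2 ^ i * |(um 𝓤 hU).m (G p)|) := by
    apply sum_le_sum
    intro p hp
    rw [← mul_add]
    apply mul_le_mul_of_nonneg_left _ (hw0 i p hp)
    have := abs_sub_abs_le_abs_sub (sS 𝓤 ψ p) ((um 𝓤 hU).m (G p))
    rw [one_mul]
    linarith
  refine h6.trans ?_
  rw [sum_add_distrib]
  have e7 : (6 : ℝ) * ((univ : Finset (Fin 2)).card : ℝ) / 2 ^ i = 12 / 2 ^ i := by
    rw [card_univ, Fintype.card_fin]; norm_num
  rw [e7] at hdec
  have e8 : (20 : ℝ) * (ε / 20) = ε := by ring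
  rw [e8] at hmr
  have h9 : ∑ p ∈ QD i (i + 1), Real.log p / 2 ^ i * |(um 𝓤 hU).m (G p)| ≤ ε := hmr
  linarith

/-- the even exponents have divergent harmonic sum -/
lemma sum_inv_even (i₀ : ℕ) (h0 : 1 ≤ i₀) (K : ℝ) : ∃ i₁ : ℕ, i₀ < i₁ ∧
    K < ∑ i ∈ (Ico i₀ i₁).filter (fun i => Even i), (1 : ℝ) / i := by
  obtain ⟨j₁, hj, hK⟩ := Pool.Agent.Y958.TC.sum_inv_large i₀ h0 (2 * K)
  refine ⟨2 * j₁, by omega, ?_⟩
  have h1 : ∑ j ∈ Ico i₀ j₁, (1 : ℝ) / ((2 * j : ℕ) : ℝ) ≤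
      ∑ i ∈ (Ico i₀ (2 * j₁)).filter (fun i => Even i), (1 : ℝ) / i := by
    have e : ∑ j ∈ Ico i₀ j₁, (1 : ℝ) / ((2 * j : ℕ) : ℝ) =
        ∑ i ∈ (Ico i₀ j₁).image (fun j : ℕ => 2 * j), (1 : ℝ) / (i : ℝ) := by
      rw [sum_image]
      intro x _ y _ hxy
      simp only at hxy
      omega
    rw [e]
    apply sum_le_sum_of_subset_of_nonneg
    · intro i hi
      rw [mem_image] at hi
      obtain ⟨j, hj, rfl⟩ := hi
      rw [mem_Ico] at hj
      rw [mem_filter, mem_Ico]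
      exact ⟨⟨by omega, by omega⟩, ⟨j, by ring⟩⟩
    · intro i _ _
      positivity
  have h2 : ∑ j ∈ Ico i₀ j₁, (1 : ℝ) / ((2 * j : ℕ) : ℝ) = (∑ j ∈ Ico i₀ j₁, (1 : ℝ) / j) / 2 := by
    rw [sum_div]
    apply sum_congr rfl
    intro j hj
    rw [mem_Ico] at hj
    have : (0 : ℝ) < j := by exact_mod_cast (by omega : 0 < j)
    push_cast
    field_simp
  rw [h2] at h1
  linarith

/-- **windowed two point theorem** for finitely many periodic weights: below every large `M` there is a scale `M / p`,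
`p` a bounded number in `(4 ^ j, (1 + κ) * 4 ^ j]`, which is good for all the weights -/
theorem two_win (hPW : S_PW) (f : ℕ → ℤ) (hb : ∀ n, |f n| ≤ 1) (hf : FlipAll f)
    (hE : ExpoSmall (fun n => (f n : ℂ))) (h : ℕ) (hh : 1 ≤ h) (q : ℕ) (hq : 1 ≤ q)
    (s : Finset ℕ) (w : ℕ → ℕ → ℝ)
    (hw1 : ∀ a ∈ s, ∀ n, |w a n| ≤ 1) (hwq : ∀ a ∈ s, ∀ n, w a (n + q) = w a n) (δ : ℝ) (hδ : 0 < δ)
    (κ : ℝ) (hκ : 0 < κ) (hκ1 : κ < 1) :
    ∃ J M₀ : ℕ, ∀ M : ℕ, M₀ ≤ M → ∃ j p : ℕ, 1 ≤ j ∧ j ≤ J ∧ 4 ^ j < p ∧ (p : ℝ) ≤ (1 + κ) * 4 ^ j ∧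
      ∀ a ∈ s, |Av (M / p) (fun n => w a n * f n * f (n + h))| ≤ δ := by
  classical
  have hfr : ∀ n, |(f n : ℝ)| ≤ 1 := by
    intro n; exact_mod_cast hb n
  haveI : NeZero q := ⟨by omega⟩
  set ε : ℝ := δ * κ / (10 * ((s.card : ℝ) + 1)) with hε
  have hε0 : 0 < ε := by positivity
  -- thresholds
  have hI : ∃ I : ℕ, ∀ a ∈ s, ∀ i : ℕ, I ≤ i → ∀ (𝓤 : Ultrafilter ℕ) (hU : (𝓤 : Filter ℕ) ≤ atTop),
      Df (um 𝓤 hU) (alp f q) b1 () (2 * (1 + h)) i ≤ ((ε / 30) * ε / 3) * 2 ^ i / i →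
      ∑ p ∈ QD i (i + 1), Real.log p / 2 ^ i * |sS 𝓤 (fun n => w a n * f n * f (n + h)) p| ≤ 3 * ε := by
    have h1 : ∀ a : ℕ, ∃ I : ℕ, a ∈ s → ∀ i : ℕ, I ≤ i → ∀ (𝓤 : Ultrafilter ℕ)
        (hU : (𝓤 : Filter ℕ) ≤ atTop),
        Df (um 𝓤 hU) (alp f q) b1 () (2 * (1 + h)) i ≤ ((ε / 30) * ε / 3) * 2 ^ i / i →
        ∑ p ∈ QD i (i + 1), Real.log p / 2 ^ i * |sS 𝓤 (fun n => w a n * f n * f (n + h)) p| ≤ 3 * ε := by
      intro a
      by_cases ha : a ∈ s
      · obtain ⟨I, hI⟩ := scale_bound f hb hf hE h hh q hq (w a) (hw1 a ha) (hwq a ha) ε hε0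
        exact ⟨I, fun _ i hi 𝓤 hU hD => hI i hi 𝓤 hU hD⟩
      · exact ⟨0, fun h => absurd h ha⟩
    choose I hI using h1
    refine ⟨s.sup I, fun a ha i hi => hI a ha i ((le_sup (f := I) ha).trans hi)⟩
  obtain ⟨I₀, hI₀⟩ := hI
  obtain ⟨P₀, hP₀⟩ := hPW 1 le_rfl κ hκ hκ1
  set η : ℝ := (ε / 30) * ε / 3 with hη
  have hη0 : 0 < η := by positivity
  set i₀ : ℕ := I₀ + P₀ + 1 with hi₀
  set c : ℕ := 2 * (1 + h) with hc
  set B : ℝ := c * Real.log (Fintype.card (SignType × ZMod q)) / η with hB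
  obtain ⟨i₁, hi₁, hS⟩ := sum_inv_even i₀ (by omega) B
  by_contra hcon
  push Not at hcon
  -- the exceptional numbers
  set Z : Set ℕ := {M : ℕ | ∀ i ∈ (Ico i₀ i₁).filter (fun i => Even i),
    ∀ p ∈ (QD i (i + 1)).filter (fun p : ℕ => (p : ℝ) ≤ (1 + κ) * 2 ^ i),
      ∃ a ∈ s, δ < |Av (M / p) (fun n => w a n * f n * f (n + h))|} with hZ
  obtain ⟨𝓤, hU, hmem⟩ := exists_ultra Z (fun M₀ => by
    obtain ⟨M, hM1, hM2⟩ := hcon i₁ M₀
    refine ⟨M, hM1, ?_⟩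
    intro i hi p hp
    rw [mem_filter, mem_Ico] at hi
    obtain ⟨hi1, j, hj⟩ := hi
    rw [mem_filter] at hp
    have hp1 := hp.1
    unfold QD at hp1
    rw [mem_filter, mem_Ioc] at hp1
    have e4 : 4 ^ j = 2 ^ i := by
      rw [hj, ← two_mul, pow_mul]
      norm_num
    have e4r : (4 : ℝ) ^ j = 2 ^ i := by
      rw [hj, ← two_mul, pow_mul]
      norm_num
    exact hM2 j p (by omega) (by omega) (by rw [e4]; exact hp1.1.1) (by rw [e4r]; exact hp.2))
  have hψ : ∀ a ∈ s, ∀ n, |w a n * f n * f (n + h)| ≤ 1 := by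
    intro a ha n
    rw [abs_mul, abs_mul]
    calc |w a n| * |(f n : ℝ)| * |(f (n + h) : ℝ)| ≤ 1 * 1 * 1 := by
          gcongr
          · exact hw1 a ha n
          · exact hfr n
          · exact hfr _
      _ = 1 := by norm_num
  have hbad := bad_sum (um 𝓤 hU) (alp f q) c η hη0 i₀ i₁ (by omega)
  -- a good even exponent
  obtain ⟨i, hi, hDf⟩ : ∃ i ∈ (Ico i₀ i₁).filter (fun i => Even i),
      Df (um 𝓤 hU) (alp f q) b1 () c i ≤ η * 2 ^ i / i := by
    by_contra hno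
    push Not at hno
    have h1 : ∑ i ∈ (Ico i₀ i₁).filter (fun i => Even i), (1 : ℝ) / i ≤
        ∑ i ∈ (Ico i₀ i₁).filter (fun i => ¬ Df (um 𝓤 hU) (alp f q) b1 () c i ≤ η * 2 ^ i / i), (1 : ℝ) / i := by
      apply sum_le_sum_of_subset_of_nonneg
      · intro i hi
        have h2 := hno i hi
        rw [mem_filter] at hi ⊢
        exact ⟨hi.1, not_le.2 h2⟩
      · intro i _ _
        positivity
    linarith
  have hi' := hi
  rw [mem_filter, mem_Ico] at hi'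
  have hip : i < 2 ^ i := Nat.lt_two_pow_self
  have h2i : (0 : ℝ) < 2 ^ i := by positivity
  set W : Finset ℕ := (QD i (i + 1)).filter (fun p : ℕ => (p : ℝ) ≤ (1 + κ) * 2 ^ i) with hW
  -- each prime of the window is bad
  have hWbad : ∀ p ∈ W, δ ≤ ∑ a ∈ s, |sS 𝓤 (fun n => w a n * f n * f (n + h)) p| := by
    intro p hp
    have h1 : Tendsto (fun M => ∑ a ∈ s, |Av (M / p) (fun n => w a n * f n * f (n + h))|) 𝓤
        (𝓝 (∑ a ∈ s, |sS 𝓤 (fun n => w a n * f n * f (n + h)) p|)) := by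
      apply tendsto_finsetSum
      intro a ha
      exact (sS_tendsto 𝓤 (hψ a ha) p).abs
    apply ge_of_tendsto h1
    filter_upwards [hmem] with M hM
    obtain ⟨a, ha, h2⟩ := hM i hi p hp
    exact h2.le.trans (single_le_sum (f := fun a => |Av (M / p) (fun n => w a n * f n * f (n + h))|)
      (fun _ _ => abs_nonneg _) ha)
  have hw0 : ∀ p ∈ QD i (i + 1), 0 ≤ Real.log (p : ℝ) / 2 ^ i := fun p _ =>
    div_nonneg (Real.log_natCast_nonneg _) h2i.le
  have hup : ∑ p ∈ W, Real.log p / 2 ^ i * δ ≤ s.card * (3 * ε) := by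
    calc ∑ p ∈ W, Real.log p / 2 ^ i * δ ≤
          ∑ p ∈ W, Real.log p / 2 ^ i * ∑ a ∈ s, |sS 𝓤 (fun n => w a n * f n * f (n + h)) p| := by
          apply sum_le_sum
          intro p hp
          exact mul_le_mul_of_nonneg_left (hWbad p hp) (hw0 p (mem_filter.1 hp).1)
      _ ≤ ∑ p ∈ QD i (i + 1), Real.log p / 2 ^ i *
            ∑ a ∈ s, |sS 𝓤 (fun n => w a n * f n * f (n + h)) p| := by
          apply sum_le_sum_of_subset_of_nonneg (filter_subset _ _)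
          intro p hp _
          exact mul_nonneg (hw0 p hp) (sum_nonneg fun _ _ => abs_nonneg _)
      _ = ∑ a ∈ s, ∑ p ∈ QD i (i + 1), Real.log p / 2 ^ i *
            |sS 𝓤 (fun n => w a n * f n * f (n + h)) p| := by
          rw [sum_comm]
          apply sum_congr rfl
          intro p _
          rw [mul_sum]
      _ ≤ ∑ a ∈ s, 3 * ε := sum_le_sum fun a ha => hI₀ a ha i (by omega) 𝓤 hU hDf
      _ = s.card * (3 * ε) := by rw [sum_const, nsmul_eq_mul]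
  -- the lower bound for the primes
  have hcount := hP₀ (2 ^ i) (by omega)
  have hsub : (Ioc (2 ^ i) ⌊(1 + κ) * ((2 ^ i : ℕ) : ℝ)⌋₊).filter
      (fun p => p.Prime ∧ p % 1 = 1 % 1) ⊆ W := by
    intro p hp
    rw [mem_filter, mem_Ioc] at hp
    have h1 : (p : ℝ) ≤ (1 + κ) * 2 ^ i := by
      have h2 : (p : ℝ) ≤ (1 + κ) * ((2 ^ i : ℕ) : ℝ) :=
        (Nat.cast_le.2 hp.1.2).trans (Nat.floor_le (by positivity))
      push_cast at h2
      exact h2
    rw [hW, mem_filter]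
    refine ⟨?_, h1⟩
    unfold QD
    rw [mem_filter, mem_Ioc]
    refine ⟨⟨hp.1.1, ?_⟩, hp.2.1⟩
    have : (p : ℝ) ≤ ((2 ^ (i + 1) : ℕ) : ℝ) := by
      push_cast
      rw [pow_succ]
      nlinarith
    exact_mod_cast this
  have hcard := (card_le_card hsub)
  have hcardr : (3 / 4 : ℝ) * (κ * ((2 ^ i : ℕ) : ℝ) / (((1 : ℕ).totient : ℝ) * Real.log ((2 ^ i : ℕ) : ℝ))) ≤
      (W.card : ℝ) := hcount.trans (by exact_mod_cast hcard)
  have hl2 : 0 < Real.log 2 := Real.log_pos (by norm_num)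
  have hi1 : (0 : ℝ) < i := by exact_mod_cast (by omega : 0 < i)
  have hlog2i : Real.log ((2 ^ i : ℕ) : ℝ) = i * Real.log 2 := by
    push_cast
    rw [Real.log_pow]
  rw [hlog2i, Nat.totient_one, Nat.cast_one, one_mul] at hcardr
  have hlow : (W.card : ℝ) * ((i * Real.log 2) / 2 ^ i * δ) ≤ ∑ p ∈ W, Real.log p / 2 ^ i * δ := by
    rw [← nsmul_eq_mul]
    apply card_nsmul_le_sum
    intro p hp
    apply mul_le_mul_of_nonneg_right _ hδ.le
    apply div_le_div_of_nonneg_right _ h2i.le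
    have hp1 := (mem_filter.1 hp).1
    unfold QD at hp1
    rw [mem_filter, mem_Ioc] at hp1
    have h := Real.log_le_log (by positivity) (by exact_mod_cast hp1.1.1.le : (2 : ℝ) ^ i ≤ (p : ℝ))
    rw [Real.log_pow] at h
    exact h
  have h3 : (3 / 4 : ℝ) * κ * δ ≤ (W.card : ℝ) * ((i * Real.log 2) / 2 ^ i * δ) := by
    have h4 : (3 / 4 : ℝ) * (κ * ((2 ^ i : ℕ) : ℝ) / (i * Real.log 2)) * ((i * Real.log 2) / 2 ^ i * δ) =
        3 / 4 * κ * δ := by
      push_cast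
      field_simp
    rw [← h4]
    exact mul_le_mul_of_nonneg_right hcardr (by positivity)
  have h5 : (s.card : ℝ) * (3 * ε) ≤ 3 / 10 * (κ * δ) := by
    rw [hε]
    have hc0 : (0 : ℝ) ≤ s.card := Nat.cast_nonneg _
    have h6 : (s.card : ℝ) * (3 * (δ * κ / (10 * ((s.card : ℝ) + 1)))) =
        3 / 10 * (κ * δ) * ((s.card : ℝ) / ((s.card : ℝ) + 1)) := by
      field_simp
    rw [h6]
    have h7 : (s.card : ℝ) / ((s.card : ℝ) + 1) ≤ 1 := by
      rw [div_le_one (by positivity)]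
      linarith
    have h8 : 0 ≤ 3 / 10 * (κ * δ) := by positivity
    nlinarith
  have h9 : 0 < κ * δ := by positivity
  nlinarith

end Pool.Agent.E8helper83.WS
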