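import Pool.Agent.E8helper83.WS.Rec
import Pool.Agent.E8helper83.WS.Win2
import Pool.Agent.Y958.U.Lam

/-!
Library E8helper83.WS (helper83): products of the Liouville function along arithmetic progressions of length `k`, at every
scale.
-/

set_option autoImplicit false

namespace Pool.Agent.E8helper83.WS

open Finset ArithmeticFunction
open Pool.Agent.H375R2
open Pool.Agent.Y958.TC (Av)

/-- the progression `0, d, ..., (k - 1) d` -/
def Sd (k d : ℕ) : Finset ℕ := (range k).image (fun j => j * d)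

lemma inj_mul (d : ℕ) (hd : 1 ≤ d) : Function.Injective (fun j : ℕ => j * d) := by
  intro a b h
  exact Nat.eq_of_mul_eq_mul_right (by omega) h

lemma card_Sd (k d : ℕ) (hd : 1 ≤ d) : (Sd k d).card = k := by
  unfold Sd
  rw [card_image_of_injective _ (inj_mul d hd), card_range]

lemma prod_Sd {M : Type} [CommMonoid M] (k d : ℕ) (hd : 1 ≤ d) (g : ℕ → M) :
    ∏ h ∈ Sd k d, g h = ∏ j ∈ range k, g (j * d) := by
  unfold Sd
  rw [prod_image (fun a _ b _ h => inj_mul d hd h)]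

lemma FF_Sd (k d n : ℕ) (hd : 1 ≤ d) : FF (Sd k d) n = ∏ j ∈ range k, lam (n + j * d) := by
  unfold FF
  exact prod_Sd k d hd (fun h => lam (n + h))

lemma FF_mul (k d n : ℕ) (hd : 1 ≤ d) :
    FF (Sd k d) n * FF (Sd k d) (n + d) = lam n * lam (n + k * d) := by
  have h1 := prod_range_succ (fun j => lam (n + j * d)) k
  rw [prod_range_succ'] at h1
  have h2 : FF (Sd k d) (n + d) = ∏ j ∈ range k, lam (n + (j + 1) * d) := by
    rw [FF_Sd k d _ hd]
    apply prod_congr rfl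
    intro j _
    congr 1
    ring
  rw [← h2, ← FF_Sd k d n hd, zero_mul, add_zero] at h1
  have h3 := lam_sq n
  have h4 := lam_sq (n + k * d)
  rcases FF_cases (Sd k d) n with h | h <;> rcases FF_cases (Sd k d) (n + d) with h' | h' <;>
    rcases lam_cases n with a | a <;> rcases lam_cases (n + k * d) with b | b <;>
    rw [h, h', a, b] at h1 <;> rw [h, h', a, b] <;> simp at h1 ⊢

/-- the number of even and odd terms -/
lemma ev_Sd (k d : ℕ) (hd : 1 ≤ d) : ev (Sd k d) = if d % 2 = 0 then k else (k + 1) / 2 := by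
  unfold ev Sd
  rw [filter_image, card_image_of_injective _ (inj_mul d hd)]
  induction k with
  | zero => simp
  | succ k ih =>
    rw [range_add_one, filter_insert]
    have hnot : k ∉ (range k).filter (fun j => j * d % 2 = 0) := by simp
    split_ifs at ih ⊢ with h1 h2 h2
    · rw [card_insert_of_notMem hnot, ih]
    · rw [card_insert_of_notMem hnot, ih]
      have hd2 : d % 2 = 1 := by omega
      rw [Nat.mul_mod, hd2, mul_one, Nat.mod_mod] at h1
      omega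
    · exfalso
      apply h1
      rw [Nat.mul_mod, h2]
      simp
    · rw [ih]
      have hd2 : d % 2 = 1 := by omega
      rw [Nat.mul_mod, hd2, mul_one, Nat.mod_mod] at h1
      omega

lemma od_Sd (k d : ℕ) (hd : 1 ≤ d) : od (Sd k d) = if d % 2 = 0 then 0 else k / 2 := by
  unfold od Sd
  rw [filter_image, card_image_of_injective _ (inj_mul d hd)]
  induction k with
  | zero => simp
  | succ k ih =>
    rw [range_add_one, filter_insert]
    have hnot : k ∉ (range k).filter (fun j => j * d % 2 = 1) := by simp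
    split_ifs at ih ⊢ with h1 h2 h2
    · exfalso
      rw [Nat.mul_mod, h2] at h1
      simp at h1
    · rw [card_insert_of_notMem hnot, ih]
      have hd2 : d % 2 = 1 := by omega
      rw [Nat.mul_mod, hd2, mul_one, Nat.mod_mod] at h1
      omega
    · rw [ih]
    · rw [ih]
      have hd2 : d % 2 = 1 := by omega
      rw [Nat.mul_mod, hd2, mul_one, Nat.mod_mod] at h1
      omega

/-- the parameter `s` of the elementary bound -/
def sp (k d : ℕ) : ℕ := if d % 2 = 0 then k else (k + 1) / 2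

lemma max_Sd (k d : ℕ) (hd : 1 ≤ d) : max (ev (Sd k d)) (od (Sd k d)) = sp k d := by
  rw [ev_Sd k d hd, od_Sd k d hd]
  unfold sp
  split_ifs
  · simp
  · omega

/-- sum of the two point products over `Ioc 0 y` -/
noncomputable def two (h y : ℕ) : ℝ := ∑ n ∈ Ioc 0 y, ((lam n * lam (n + h) : ℤ) : ℝ)

lemma two_le (h y : ℕ) (δ : ℝ)
    (hy : |Av y (fun n => (1 : ℝ) * (Pool.Agent.H376R2.MR.lam n : ℝ) * (Pool.Agent.H376R2.MR.lam (n + h) : ℝ))| ≤ δ) :
    |two h y| ≤ δ * y + 2 := by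
  have hδ : 0 ≤ δ := (abs_nonneg _).trans hy
  rcases Nat.eq_zero_or_pos y with h0 | h0
  · rw [h0]
    unfold two
    simp
  set g : ℕ → ℝ := fun n => ((lam n * lam (n + h) : ℤ) : ℝ) with hg
  have hg1 : ∀ n, |g n| = 1 := by
    intro n
    simp only [hg]
    rcases lam_cases n with a | a <;> rcases lam_cases (n + h) with b | b <;> rw [a, b] <;> norm_num
  have e1 : Av y (fun n => (1 : ℝ) * (Pool.Agent.H376R2.MR.lam n : ℝ) * (Pool.Agent.H376R2.MR.lam (n + h) : ℝ)) =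
      (∑ n ∈ range y, g n) / y := by
    unfold Pool.Agent.Y958.TC.Av
    congr 1
    apply sum_congr rfl
    intro n _
    simp only [hg]
    unfold lam Pool.Agent.H376R2.MR.lam
    push_cast
    ring
  have hy0 : (0 : ℝ) < y := by exact_mod_cast h0
  rw [e1, abs_div, abs_of_pos hy0, div_le_iff₀ hy0] at hy
  have e2 : two h y = ∑ n ∈ range y, g n + g y - g 0 := by
    have h1 := sum_range_succ g y
    rw [sum_range_succ'] at h1
    have h2 : two h y = ∑ n ∈ range y, g (n + 1) := by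
      unfold two
      rw [Pool.Agent.Y958.U.sum_range_Icc g y]
      apply sum_congr _ fun _ _ => rfl
      ext n
      simp only [mem_Ioc, mem_Icc]
      omega
    rw [h2]
    linarith
  rw [e2]
  have h3 := hg1 y
  have h4 := hg1 0
  have h5 := abs_sub (∑ n ∈ range y, g n + g y) (g 0)
  have h6 := abs_add_le (∑ n ∈ range y, g n) (g y)
  have h7 : |∑ n ∈ range y, g n + g y - g 0| ≤ |∑ n ∈ range y, g n + g y| + |g 0| := by
    exact abs_sub _ _
  linarith

lemma NN_ge_two (d y : ℕ) (hd : 1 ≤ d) : ((y : ℝ) - |two d y|) / 2 ≤ NN (Sd 2 d) 1 y := by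
  have hp : ∀ n, (cc (Sd 2 d) 1 n : ℝ) = (1 + ((lam n * lam (n + d) : ℤ) : ℝ)) / 2 := by
    intro n
    have h1 : FF (Sd 2 d) n = lam n * lam (n + d) := by
      rw [FF_Sd 2 d n hd, prod_range_succ, prod_range_one, zero_mul, add_zero, one_mul]
    unfold cc
    rw [h1]
    rcases lam_cases n with a | a <;> rcases lam_cases (n + d) with b | b <;> rw [a, b] <;> norm_num
  have h2 : (NN (Sd 2 d) 1 y : ℝ) = (y + two d y) / 2 := by
    unfold NN two
    push_cast
    rw [sum_congr rfl (fun n _ => hp n), ← sum_div, sum_add_distrib]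
    congr 1
    simp
  rw [h2]
  have := neg_abs_le (two d y)
  linarith

lemma NN_ge (k d y : ℕ) (hd : 1 ≤ d) (e : ℤ) (he : e = 1 ∨ e = -1) :
    ((y : ℝ) - |two (k * d) y|) / 4 - d / 2 ≤ NN (Sd k d) e y := by
  have hp : ∀ n, (1 - ((lam n * lam (n + k * d) : ℤ) : ℝ)) / 2 ≤
      (cc (Sd k d) e n : ℝ) + cc (Sd k d) e (n + d) := by
    intro n
    rw [← FF_mul k d n hd]
    unfold cc
    rcases FF_cases (Sd k d) n with a | a <;> rcases FF_cases (Sd k d) (n + d) with b | b <;>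
      rcases he with h | h <;> rw [a, b, h] <;> norm_num
  have h1 : ((y : ℝ) - two (k * d) y) / 2 ≤ NN (Sd k d) e y + ∑ n ∈ Ioc 0 y, (cc (Sd k d) e (n + d) : ℝ) := by
    have h2 := sum_le_sum (s := Ioc 0 y) fun n _ => hp n
    rw [sum_add_distrib, ← sum_div, sum_sub_distrib] at h2
    unfold two NN
    push_cast at h2 ⊢
    simpa using h2
  have h3 : ∑ n ∈ Ioc 0 y, (cc (Sd k d) e (n + d) : ℝ) ≤ NN (Sd k d) e y + d := by
    have h4 : ∑ n ∈ Ioc 0 y, cc (Sd k d) e (n + d) ≤ NN (Sd k d) e (y + d) := by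
      unfold NN
      rw [← sum_image (f := fun n => cc (Sd k d) e n) (g := fun n => n + d) (s := Ioc 0 y)
        (fun a _ b _ h => by simp only at h; omega)]
      apply sum_le_sum_of_subset
      intro n hn
      rw [mem_image] at hn
      obtain ⟨m, hm, rfl⟩ := hn
      rw [mem_Ioc] at hm ⊢
      omega
    have h5 : NN (Sd k d) e (y + d) ≤ NN (Sd k d) e y + d := by
      rw [NN_split (Sd k d) e (show y ≤ y + d by omega)]
      have : ∑ n ∈ Ioc y (y + d), cc (Sd k d) e n ≤ ∑ n ∈ Ioc y (y + d), 1 :=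
        sum_le_sum fun n _ => cc_le _ _ _
      simp at this
      omega
    exact_mod_cast h4.trans h5
  have := le_abs_self (two (k * d) y)
  linarith

/-- good scales for the counting function -/
theorem good_scales (k d : ℕ) (hk : 2 ≤ k) (hd : 1 ≤ d) : ∃ J M₀ : ℕ, ∀ N : ℕ, M₀ ≤ N → ∃ j p : ℕ,
    1 ≤ j ∧ j ≤ J ∧ 4 ^ j < p ∧ (p : ℝ) ≤ (1 + 1 / 10) * 4 ^ j ∧ ∀ e : ℤ,
      ((Odd k ∧ (e = 1 ∨ e = -1)) ∨ (Even k ∧ e = 1)) →
      (1 / (2 * (sp k d : ℝ) + 1) * (1 + 1 / 10) + 1 / 50) * ((N / p : ℕ) : ℝ) - (d + 1) ≤ NN (Sd k d) e (N / p) := by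
  set h : ℕ := if k = 2 then d else k * d with hh
  have hh1 : 1 ≤ h := by
    rw [hh]
    split_ifs
    · exact hd
    · exact Nat.one_le_iff_ne_zero.2 (Nat.mul_ne_zero (by omega) (by omega))
  obtain ⟨J, M₀, H⟩ := two_win Pool.Agent.Y304.U.pw Pool.Agent.H376R2.MR.lam Pool.Agent.TH823.MRS.lam_bdd
    Pool.Agent.TH823.MRS.lam_flip Pool.Agent.TH823.MRS.expo_lam h hh1 1 le_rfl {0} (fun _ _ => 1)
    (fun _ _ _ => by simp) (fun _ _ _ => rfl) (1 / 100) (by norm_num) (1 / 10) (by norm_num) (by norm_num)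
  refine ⟨J, M₀, fun N hN => ?_⟩
  obtain ⟨j, p, hj1, hjJ, hp1, hp2, hp3⟩ := H N hN
  refine ⟨j, p, hj1, hjJ, hp1, hp2, fun e he => ?_⟩
  have h1 := two_le h (N / p) (1 / 100) (hp3 0 (mem_singleton_self 0))
  set y : ℕ := N / p with hy
  have hy0 : (0 : ℝ) ≤ y := Nat.cast_nonneg _
  have hd1 : (1 : ℝ) ≤ d := by exact_mod_cast hd
  by_cases hk2 : k = 2
  · rw [if_pos hk2] at hh
    subst hk2
    have he1 : e = 1 := by
      rcases he with ⟨h2, -⟩ | ⟨-, h2⟩
      · exact absurd h2 (by decide)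
      · exact h2
    rw [he1]
    have h2 := NN_ge_two d y hd
    rw [hh] at h1
    have h3 : 1 / (2 * (sp 2 d : ℝ) + 1) ≤ 1 / 3 := by
      apply one_div_le_one_div_of_le (by norm_num)
      have : (1 : ℝ) ≤ sp 2 d := by
        have : 1 ≤ sp 2 d := by unfold sp; split_ifs <;> norm_num
        exact_mod_cast this
      linarith
    have h4 : (1 / (2 * (sp 2 d : ℝ) + 1) * (1 + 1 / 10) + 1 / 50) * (y : ℝ) ≤ (1 / 3 * (1 + 1 / 10) + 1 / 50) * y := by
      apply mul_le_mul_of_nonneg_right _ hy0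
      linarith
    linarith
  · rw [if_neg hk2] at hh
    have he1 : e = 1 ∨ e = -1 := by tauto
    have h2 := NN_ge k d y hd e he1
    rw [hh] at h1
    have h3 : 1 / (2 * (sp k d : ℝ) + 1) ≤ 1 / 5 := by
      apply one_div_le_one_div_of_le (by norm_num)
      have : (2 : ℝ) ≤ sp k d := by
        have : 2 ≤ sp k d := by unfold sp; split_ifs <;> omega
        exact_mod_cast this
      linarith
    have h4 : (1 / (2 * (sp k d : ℝ) + 1) * (1 + 1 / 10) + 1 / 50) * (y : ℝ) ≤ (1 / 5 * (1 + 1 / 10) + 1 / 50) * y := by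
      apply mul_le_mul_of_nonneg_right _ hy0
      linarith
    linarith

/-- **strict improvement of the elementary bound at every scale** -/
theorem NN_strict (k d : ℕ) (hk : 2 ≤ k) (hd : 1 ≤ d) : ∃ (c : ℝ) (N₀ : ℕ), 0 < c ∧ ∀ N : ℕ, N₀ ≤ N → ∀ e : ℤ,
    ((Odd k ∧ (e = 1 ∨ e = -1)) ∨ (Even k ∧ e = 1)) →
      (1 / (2 * (sp k d : ℝ) + 1) + c) * N ≤ NN (Sd k d) e N := by
  obtain ⟨J, M₀, H⟩ := good_scales k d hk hd
  have hs1 : 1 ≤ sp k d := by unfold sp; split_ifs <;> omega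
  set s : ℕ := sp k d with hs
  have hsR : (1 : ℝ) ≤ (s : ℝ) := by exact_mod_cast hs1
  set K : ℝ := 2 * ((∑ h ∈ Sd k d, h : ℕ) : ℝ) + 2 with hK
  have hK0 : 0 ≤ K := by positivity
  set T : ℝ := (s : ℝ) ^ (2 * J) with hT
  have hT1 : 1 ≤ T := one_le_pow₀ hsR
  set Q : ℝ := (4 : ℝ) ^ J with hQ
  have hQ1 : 1 ≤ Q := one_le_pow₀ (by norm_num)
  set c : ℝ := 1 / (200 * (Q * T)) with hc
  have hc0 : 0 < c := by positivity
  -- threshold
  set L : ℝ := (2 * Q) * (50 * ((d : ℝ) + 3) + 1) + (((d : ℝ) + 4) + J * K) / c with hL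
  refine ⟨c, M₀ + ⌈L⌉₊, hc0, fun N hN e he => ?_⟩
  have hNL : L ≤ N := (Nat.le_ceil L).trans (by exact_mod_cast (by omega : ⌈L⌉₊ ≤ N))
  obtain ⟨j, p, hj1, hjJ, hp1, hp2, hp3⟩ := H N (by omega)
  have hgood := hp3 e he
  set y : ℕ := N / p with hy
  set z : ℕ := N / 4 ^ j with hz
  have hp0 : 0 < p := lt_of_le_of_lt (Nat.zero_le _) hp1
  have hpR : (0 : ℝ) < p := by exact_mod_cast hp0
  have h4j : (0 : ℝ) < (4 : ℝ) ^ j := by positivity
  have h4jQ : (4 : ℝ) ^ j ≤ Q := pow_le_pow_right₀ (by norm_num) hjJ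
  have hyz : y ≤ z := Nat.div_le_div_left hp1.le (by positivity)
  have hy1 : (N : ℝ) < ((y : ℝ) + 1) * p := by
    have := Nat.lt_div_mul_add (a := N) hp0
    have h2 : (N : ℝ) < ((N / p : ℕ) : ℝ) * p + p := by exact_mod_cast this
    rw [← hy] at h2
    linarith
  have hz1 : (z : ℝ) * 4 ^ j ≤ N := by
    have := Nat.div_mul_le_self N (4 ^ j)
    exact_mod_cast this
  have hz2 : (z : ℝ) ≤ (1 + 1 / 10) * ((y : ℝ) + 1) := by
    have h1 : (z : ℝ) * 4 ^ j ≤ ((1 + 1 / 10) * ((y : ℝ) + 1)) * 4 ^ j := by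
      have h2 : ((y : ℝ) + 1) * p ≤ ((y : ℝ) + 1) * ((1 + 1 / 10) * 4 ^ j) :=
        mul_le_mul_of_nonneg_left hp2 (by positivity)
      linarith
    exact le_of_mul_le_mul_right h1 h4j
  have hy2 : (N : ℝ) / (2 * Q) - 1 ≤ y := by
    have h1 : ((y : ℝ) + 1) * p ≤ ((y : ℝ) + 1) * (2 * Q) := by
      apply mul_le_mul_of_nonneg_left _ (by positivity)
      linarith
    rw [sub_le_iff_le_add, div_le_iff₀ (by positivity)]
    linarith
  have hNz : (NN (Sd k d) e y : ℝ) ≤ NN (Sd k d) e z := by exact_mod_cast NN_mono (Sd k d) e hyz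
  -- the excess at `z`
  have hcard := card_Sd k d hd
  have hmax := max_Sd k d hd
  have hne : (Sd k d).Nonempty := by
    rw [← card_pos, hcard]
    omega
  have he' : (Odd (Sd k d).card ∧ (e = 1 ∨ e = -1)) ∨ (Even (Sd k d).card ∧ e = 1) := by
    rw [hcard]
    exact he
  have hiter := ex_iter (Sd k d) hne e he' j N
  rw [hmax, ← hs, ← hK, ← hz] at hiter
  have hexz : (1 / 50 : ℝ) * y - (d + 3) ≤ ex (Sd k d) e z := by
    unfold ex
    rw [hmax, ← hs]
    have h1 : (z : ℝ) / (2 * (s : ℝ) + 1) ≤ 1 / (2 * (s : ℝ) + 1) * (1 + 1 / 10) * y + 1 * (1 + 1 / 10) := by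
      have h2 : (z : ℝ) / (2 * (s : ℝ) + 1) ≤ ((1 + 1 / 10) * ((y : ℝ) + 1)) / (2 * (s : ℝ) + 1) :=
        div_le_div_of_nonneg_right hz2 (by positivity)
      have h3 : ((1 + 1 / 10) * ((y : ℝ) + 1)) / (2 * (s : ℝ) + 1) =
          1 / (2 * (s : ℝ) + 1) * (1 + 1 / 10) * y + 1 / (2 * (s : ℝ) + 1) * (1 + 1 / 10) := by
        field_simp
      have h4 : 1 / (2 * (s : ℝ) + 1) ≤ 1 := by
        rw [div_le_one (by positivity)]
        linarith
      rw [h3] at h2
      linarith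
    linarith
  have hQ0 : 0 < Q := by linarith
  have hLpos : (2 * Q) * (50 * ((d : ℝ) + 3) + 1) ≤ N := by
    have : 0 ≤ (((d : ℝ) + 4) + J * K) / c := by positivity
    linarith
  have hyL : 50 * ((d : ℝ) + 3) ≤ y := by
    have h1 : 50 * ((d : ℝ) + 3) + 1 ≤ (N : ℝ) / (2 * Q) := by
      rw [le_div_iff₀ (by positivity)]
      linarith
    linarith
  have hexz0 : 0 ≤ (1 / 50 : ℝ) * y - (d + 3) := by linarith
  have hT0 : 0 < T := by linarith
  have hsj : (0 : ℝ) < (s : ℝ) ^ (2 * j) := by positivity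
  have hsT : (s : ℝ) ^ (2 * j) ≤ T := pow_le_pow_right₀ hsR (by omega)
  have h5 : ((1 / 50 : ℝ) * y - (d + 3)) / T ≤ ex (Sd k d) e z / (s : ℝ) ^ (2 * j) := by
    calc ((1 / 50 : ℝ) * y - (d + 3)) / T ≤ ((1 / 50 : ℝ) * y - (d + 3)) / (s : ℝ) ^ (2 * j) :=
          div_le_div_of_nonneg_left hexz0 hsj hsT
      _ ≤ _ := div_le_div_of_nonneg_right hexz hsj.le
  have h6 : (j : ℝ) * K ≤ J * K := mul_le_mul_of_nonneg_right (by exact_mod_cast hjJ) hK0
  have h7 : 2 * c * N - (d + 4) ≤ ((1 / 50 : ℝ) * y - (d + 3)) / T := by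
    have h8 : ((1 / 50 : ℝ) * ((N : ℝ) / (2 * Q) - 1) - (d + 3)) / T ≤ ((1 / 50 : ℝ) * y - (d + 3)) / T := by
      apply div_le_div_of_nonneg_right _ hT0.le
      linarith
    have h9 : ((1 / 50 : ℝ) * ((N : ℝ) / (2 * Q) - 1) - (d + 3)) / T = 2 * c * N - (1 / 50 + (d + 3)) / T := by
      rw [hc]
      field_simp
      ring
    have h10 : (1 / 50 + ((d : ℝ) + 3)) / T ≤ 1 / 50 + (d + 3) := div_le_self (by positivity) hT1
    rw [h9] at h8
    linarith
  have h11 : ((d : ℝ) + 4) + J * K ≤ c * N := by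
    have h12 : (((d : ℝ) + 4) + J * K) / c ≤ N := by
      have : 0 ≤ (2 * Q) * (50 * ((d : ℝ) + 3) + 1) := by positivity
      linarith
    rw [div_le_iff₀ hc0] at h12
    linarith
  have h13 : c * N ≤ ex (Sd k d) e N := by linarith
  unfold ex at h13
  rw [hmax, ← hs] at h13
  have h14 : (1 / (2 * (s : ℝ) + 1) + c) * N = (N : ℝ) / (2 * s + 1) + c * N := by ring
  rw [h14]
  linarith

/-- the final statement -/
theorem cons_final (k d : ℕ) (hk : 2 ≤ k) (hd : 1 ≤ d) : ∃ (c : ℝ) (N₀ : ℕ), 0 < c ∧ ∀ N : ℕ, N₀ ≤ N →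
    -((1 - 2 / (2 * (sp k d : ℝ) + 1) - c) * N) ≤
      ∑ n ∈ Icc 1 N, ∏ j ∈ range k, (-1 : ℝ) ^ cardFactors (n + j * d) ∧
    (Odd k → ∑ n ∈ Icc 1 N, ∏ j ∈ range k, (-1 : ℝ) ^ cardFactors (n + j * d) ≤
      (1 - 2 / (2 * (sp k d : ℝ) + 1) - c) * N) := by
  obtain ⟨c, N₀, hc, H⟩ := NN_strict k d hk hd
  refine ⟨2 * c, N₀, by positivity, fun N hN => ?_⟩
  have e1 : ∑ n ∈ Icc 1 N, ∏ j ∈ range k, (-1 : ℝ) ^ cardFactors (n + j * d) =
      (NN (Sd k d) 1 N : ℝ) - (NN (Sd k d) (-1) N : ℝ) := by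
    rw [← sum_FF]
    apply sum_congr rfl
    intro n _
    exact (prod_Sd k d hd (fun h => (-1 : ℝ) ^ cardFactors (n + h))).symm
  have e2 : (NN (Sd k d) 1 N : ℝ) + NN (Sd k d) (-1) N = N := by exact_mod_cast NN_add (Sd k d) N
  have e3 : (1 - 2 / (2 * (sp k d : ℝ) + 1) - 2 * c) * N = N - 2 * ((1 / (2 * (sp k d : ℝ) + 1) + c) * N) := by
    ring
  rw [e1, e3]
  constructor
  · have h1 := H N hN 1 (by
      rcases Nat.even_or_odd k with h | h
      · exact Or.inr ⟨h, rfl⟩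
      · exact Or.inl ⟨h, Or.inl rfl⟩)
    linarith
  · intro hodd
    have h1 := H N hN (-1) (Or.inl ⟨hodd, Or.inr rfl⟩)
    linarith

end Pool.Agent.E8helper83.WS
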