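import Pool.Agent.E8helper83.WS.Main
import Pool.Agent.Y958.U.Lam

/-!
Library E8helper83.WS (helper83): products of the Liouville function along pairwise non-proportional linear forms: the
natural averages are bounded away from `1` at every scale.
-/

set_option autoImplicit false

namespace Pool.Agent.E8helper83.WS

open Finset Filter Topology
open Pool.Agent.TH823.MRS (ExpoSmall FlipAll lam_bdd lam_flip expo_lam)
open Pool.Agent.H376R2.MR (lam)
open Pool.Agent.Y958.TC (ind Av)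
open Pool.Agent.Y958.U

theorem forms_win (k : ℕ) (a b : Fin k → ℕ) (hk : 1 ≤ k) (ha : ∀ i, 1 ≤ a i)
    (hab : ∀ i j, i ≠ j → a i * b j ≠ a j * b i) :
    ∃ (c : ℝ) (N₀ : ℕ), 0 < c ∧ ∀ N : ℕ, N₀ ≤ N → |∑ n ∈ Icc 1 N, FF a b n| ≤ (1 - c) * N := by
  classical
  obtain ⟨d, rfl⟩ : ∃ d, k = d + 1 := ⟨k - 1, by omega⟩
  obtain ⟨c, hc0, hc1, hU⟩ := main_win Pool.Agent.Y304.U.pw
    (Pool.Agent.Y79.U.cube Pool.Agent.Y500.U.sv Pool.Agent.Y904.U.hav) Pool.Agent.Y105.U.box
    Pool.Agent.Y578.U.alg d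
  set A : ℕ := ∏ i, a i with hAd
  have hA : 1 ≤ A := Nat.one_le_iff_ne_zero.2 (prod_ne_zero_iff.2 fun i _ => by have := ha i; omega)
  have hA0 : (0 : ℝ) < A := by exact_mod_cast hA
  set B : Fin (d + 1) → ℕ := fun i => ∏ j ∈ univ.erase i, a j with hB
  have hBA : ∀ i, a i * B i = A := by
    intro i
    rw [hB, hAd]
    exact mul_prod_erase univ a (mem_univ i)
  have hB0 : ∀ i, B i ≠ 0 := fun i h => by
    have := hBA i
    rw [h, mul_zero] at this
    omega
  set x : Fin (d + 1) → ℕ := fun i => B i * b i with hx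
  have hxi : Function.Injective x := by
    intro i j hij
    by_contra hne
    apply hab i j hne
    simp only [hx] at hij
    have h1 : A * (a i * b j) = A * (a j * b i) := by
      calc A * (a i * b j) = a i * (a j * (B j * b j)) := by rw [← hBA j]; ring
        _ = a i * (a j * (B i * b i)) := by rw [hij]
        _ = A * (a j * b i) := by rw [← hBA i]; ring
    exact Nat.eq_of_mul_eq_mul_left (by omega) h1
  have hV : ∀ n, A ∣ n + A ↔ A ∣ n := fun n => by
    rw [Nat.dvd_add_left (dvd_refl A)]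
  obtain ⟨P, M₀, h1⟩ := hU lam lam_bdd lam_flip expo_lam (fun m => A ∣ m) A hA hV
    (by rw [dv_mult A hA]; positivity) (d + 1) x (fun _ => 1) hxi (fun _ => Or.inl rfl) (by simp)
  rw [dv_mult A hA] at h1
  have hlam1 : ∀ n, ((lam n : ℤ) : ℝ) * ((lam n : ℤ) : ℝ) = 1 := by
    intro n
    rw [lam_real, ← mul_pow]
    norm_num
  set g : ℕ → ℝ := fun n => ∏ i, ((lam (A * n + x i) : ℤ) : ℝ) with hg
  have hg1 : ∀ n, |g n| = 1 := by
    intro n
    simp only [hg]
    rw [abs_prod]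
    apply prod_eq_one
    intro i _
    rw [lam_real, abs_pow, abs_neg, abs_one, one_pow]
  have hFF1 : ∀ n, |FF a b n| ≤ 1 := FF_le a b
  -- the relation between the two products
  have hFF : ∀ n : ℕ, 1 ≤ n → FF a b n = (∏ i, ((lam (B i) : ℤ) : ℝ)) * g n := by
    intro n hn
    unfold FF
    simp only [hg]
    rw [← prod_mul_distrib]
    apply prod_congr rfl
    intro i _
    have e1 : A * n + x i = B i * (a i * n + b i) := by
      simp only [hx]
      rw [← hBA i]
      ring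
    have e2 : a i * n + b i ≠ 0 := by
      have : 1 ≤ a i * n := Nat.one_le_iff_ne_zero.2 (Nat.mul_ne_zero (by have := ha i; omega) (by omega))
      omega
    rw [e1, lam_real (B i * _), ArithmeticFunction.cardFactors_mul (hB0 i) e2, pow_add, ← lam_real (B i),
      ← mul_assoc, hlam1, one_mul]
  have hB1 : |∏ i, ((lam (B i) : ℤ) : ℝ)| = 1 := by
    rw [abs_prod]
    apply prod_eq_one
    intro i _
    rw [lam_real, abs_pow, abs_neg, abs_one, one_pow]
  have hsum : ∀ N : ℕ, |∑ n ∈ Icc 1 N, FF a b n| = |∑ n ∈ Icc 1 N, g n| := by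
    intro N
    rw [sum_congr rfl (fun n hn => hFF n (mem_Icc.1 hn).1), ← mul_sum, abs_mul, hB1, one_mul]
  -- from scales `Y` of the weighted average to the forms
  have hscale : ∀ Y : ℕ, |Av Y (fun n => ind (fun m => A ∣ m) n * ∏ i, ((lam (n + x i) : ℤ) : ℝ) ^ 1)| ≤
      (1 - c) * (1 / (A : ℝ)) → |∑ n ∈ Icc 1 (Y / A), g n| ≤ (1 - c) * ((Y / A : ℕ) : ℝ) + 4 := by
    intro Y hY
    set G : ℕ → ℝ := fun n => ind (fun m => A ∣ m) n * ∏ i, ((lam (n + x i) : ℤ) : ℝ) ^ 1 with hG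
    have hG1 : ∀ n, |G n| ≤ ind (fun m => A ∣ m) n := by
      intro n
      simp only [hG, pow_one]
      rw [abs_mul]
      have h2 : |∏ i, ((lam (n + x i) : ℤ) : ℝ)| = 1 := by
        rw [abs_prod]
        apply prod_eq_one
        intro i _
        rw [lam_real, abs_pow, abs_neg, abs_one, one_pow]
      rw [h2, mul_one, abs_of_nonneg (Pool.Agent.Y958.TC.ind_nonneg _ _)]
    rcases Nat.eq_zero_or_pos Y with h0 | h0
    · rw [h0]
      simp
    have hY0 : (0 : ℝ) < Y := by exact_mod_cast h0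
    have h2 : |∑ n ∈ range Y, G n| ≤ (1 - c) * (1 / (A : ℝ)) * Y := by
      have h3 : |Av Y G| ≤ (1 - c) * (1 / (A : ℝ)) := hY
      unfold Pool.Agent.Y958.TC.Av at h3
      rw [abs_div, abs_of_pos hY0, div_le_iff₀ hY0] at h3
      exact h3
    set K : ℕ := Y / A with hK
    have hKA : A * K ≤ Y := Nat.mul_div_le Y A
    have hKA2 : Y < A * K + A := by
      have := Nat.lt_div_mul_add (a := Y) (show 0 < A by omega)
      rw [← hK, mul_comm K A] at this
      exact this
    have h4 : ∑ n ∈ range (A * K), G n = ∑ n ∈ range K, g n := by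
      have h5 := sum_mult A K hA (fun n => ∏ i, ((lam (n + x i) : ℤ) : ℝ) ^ 1)
      simp only [hG]
      rw [h5]
      apply sum_congr rfl
      intro n _
      simp only [hg, pow_one]
    have h6 : |∑ n ∈ range Y, G n - ∑ n ∈ range (A * K), G n| ≤ 1 := by
      obtain ⟨t, ht⟩ : ∃ t, Y = A * K + t := ⟨Y - A * K, by omega⟩
      have htA : t < A := by omega
      rw [ht, sum_range_add, add_sub_cancel_left]
      calc |∑ n ∈ range t, G (A * K + n)| ≤ ∑ n ∈ range t, |G (A * K + n)| := abs_sum_le_sum_abs _ _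
        _ ≤ ∑ n ∈ range t, ind (fun m => A ∣ m) (A * K + n) := sum_le_sum fun n _ => hG1 _
        _ ≤ ∑ n ∈ range t, (if n = 0 then (1 : ℝ) else 0) := by
            apply sum_le_sum
            intro n hn
            rw [mem_range] at hn
            unfold Pool.Agent.Y958.TC.ind
            split_ifs with h7 h8 h8
            · exact le_rfl
            · exfalso
              have h9 := (Nat.dvd_add_right (dvd_mul_right A K)).1 h7
              have := Nat.le_of_dvd (by omega) h9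
              omega
            · norm_num
            · exact le_rfl
        _ ≤ 1 := by
            rw [sum_ite_eq']
            split_ifs <;> norm_num
    have h7 : |∑ n ∈ Icc 1 K, g n - ∑ n ∈ range K, g n| ≤ 2 := by
      have e1 : ∑ n ∈ Icc 1 K, g n = ∑ n ∈ range K, g n + g K - g 0 := by
        have h8 := sum_range_succ g K
        rw [sum_range_succ'] at h8
        have h9 := sum_range_Icc g K
        rw [← h9]
        linarith
      rw [e1]
      have h9 := hg1 K
      have h10 := hg1 0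
      have h11 : ∑ n ∈ range K, g n + g K - g 0 - ∑ n ∈ range K, g n = g K - g 0 := by ring
      rw [h11]
      have := abs_sub (g K) (g 0)
      calc |g K - g 0| ≤ |g K| + |g 0| := abs_sub _ _
        _ = 2 := by rw [h9, h10]; norm_num
    have h8 : (1 - c) * (1 / (A : ℝ)) * Y ≤ (1 - c) * ((K : ℕ) : ℝ) + 1 := by
      have h9 : (Y : ℝ) ≤ A * K + A := by exact_mod_cast hKA2.le
      have h10 : (1 - c) * (1 / (A : ℝ)) * Y ≤ (1 - c) * (1 / (A : ℝ)) * (A * K + A) :=
        mul_le_mul_of_nonneg_left h9 (mul_nonneg (by linarith) (by positivity))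
      have h11 : (1 - c) * (1 / (A : ℝ)) * (A * K + A) = (1 - c) * K + (1 - c) := by
        field_simp
      linarith
    have h9 : |∑ n ∈ Icc 1 K, g n| ≤ |∑ n ∈ Icc 1 K, g n - ∑ n ∈ range K, g n| +
        (|∑ n ∈ range Y, G n| + |∑ n ∈ range Y, G n - ∑ n ∈ range (A * K), G n|) := by
      have e1 : ∑ n ∈ Icc 1 K, g n = (∑ n ∈ Icc 1 K, g n - ∑ n ∈ range K, g n) +
          (∑ n ∈ range Y, G n - (∑ n ∈ range Y, G n - ∑ n ∈ range (A * K), G n)) := by
        rw [h4]
        ring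
      calc |∑ n ∈ Icc 1 K, g n| = |(∑ n ∈ Icc 1 K, g n - ∑ n ∈ range K, g n) +
          (∑ n ∈ range Y, G n - (∑ n ∈ range Y, G n - ∑ n ∈ range (A * K), G n))| := by rw [← e1]
        _ ≤ |∑ n ∈ Icc 1 K, g n - ∑ n ∈ range K, g n| +
          |∑ n ∈ range Y, G n - (∑ n ∈ range Y, G n - ∑ n ∈ range (A * K), G n)| := abs_add_le _ _
        _ ≤ _ := by
            have := abs_sub (∑ n ∈ range Y, G n) (∑ n ∈ range Y, G n - ∑ n ∈ range (A * K), G n)
            linarith
    linarith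
  -- every scale
  have hP : ∀ N : ℕ, M₀ ≤ A * N → ∃ p : ℕ, 1 ≤ p ∧ p ≤ P ∧
      |∑ n ∈ Icc 1 (N / p), g n| ≤ (1 - c) * ((N / p : ℕ) : ℝ) + 4 := by
    intro N hN
    obtain ⟨p, hp1, hp2, hp3⟩ := h1 (A * N) hN
    refine ⟨p, hp1, hp2, ?_⟩
    have h2 := hscale (A * N / p) hp3
    have h3 : A * N / p / A = N / p := by
      rw [Nat.div_div_eq_div_mul, mul_comm p A, ← Nat.div_div_eq_div_mul, Nat.mul_div_cancel_left N (by omega)]
    rw [h3] at h2
    exact h2
  have hPpos : 0 < (P : ℝ) + 1 := by positivity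
  set c' : ℝ := c / (2 * ((P : ℝ) + 1)) with hc'
  have hc'0 : 0 < c' := by positivity
  refine ⟨c', M₀ + ⌈5 / c'⌉₊ + 1, hc'0, fun N hN => ?_⟩
  rw [hsum N]
  have hNA : M₀ ≤ A * N := by
    calc M₀ ≤ N := by omega
      _ ≤ A * N := Nat.le_mul_of_pos_left N (by omega)
  obtain ⟨p, hp1, hp2, hp3⟩ := hP N hNA
  set N' : ℕ := N / p with hN'
  have hN'N : N' ≤ N := Nat.div_le_self N p
  have h2 : ∑ n ∈ Icc 1 N, g n = ∑ n ∈ Icc 1 N', g n + ∑ n ∈ Ioc N' N, g n := by
    have e1 : ∀ m, Icc 1 m = Ioc 0 m := by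
      intro m
      ext n
      simp only [mem_Icc, mem_Ioc]
      omega
    rw [e1, e1, sum_Ioc_consecutive g (Nat.zero_le N') hN'N]
  have h3 : |∑ n ∈ Ioc N' N, g n| ≤ (N : ℝ) - N' := by
    calc |∑ n ∈ Ioc N' N, g n| ≤ ∑ n ∈ Ioc N' N, |g n| := abs_sum_le_sum_abs _ _
      _ = ∑ n ∈ Ioc N' N, (1 : ℝ) := sum_congr rfl fun n _ => hg1 n
      _ = (N : ℝ) - N' := by
          rw [sum_const, nsmul_eq_mul, mul_one, Nat.card_Ioc, Nat.cast_sub hN'N]
  have h4 : |∑ n ∈ Icc 1 N, g n| ≤ (N : ℝ) - c * N' + 4 := by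
    rw [h2]
    have := abs_add_le (∑ n ∈ Icc 1 N', g n) (∑ n ∈ Ioc N' N, g n)
    linarith
  have hp0 : (0 : ℝ) < p := by exact_mod_cast (by omega : 0 < p)
  have h5 : (N : ℝ) < ((N' : ℝ) + 1) * (P + 1) := by
    have h6 := Nat.lt_div_mul_add (a := N) (show 0 < p by omega)
    have h7 : (N : ℝ) < (N' : ℝ) * p + p := by exact_mod_cast h6
    have h8 : (p : ℝ) ≤ P + 1 := by
      have : (p : ℝ) ≤ P := by exact_mod_cast hp2
      linarith
    have h9 : (0 : ℝ) ≤ (N' : ℝ) + 1 := by positivity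
    nlinarith
  have h6 : 2 * c' * N ≤ c * ((N' : ℝ) + 1) := by
    have e1 : 2 * c' * N = c * (N / (P + 1)) := by
      rw [hc']
      field_simp
    rw [e1]
    apply mul_le_mul_of_nonneg_left _ hc0.le
    rw [div_le_iff₀ hPpos]
    exact h5.le
  have h7 : 5 / c' ≤ N := (Nat.le_ceil _).trans (by exact_mod_cast (by omega : ⌈5 / c'⌉₊ ≤ N))
  rw [div_le_iff₀ hc'0] at h7
  linarith

end Pool.Agent.E8helper83.WS
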