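import Pool.Agent.Y958.U.Fin
import Pool.Agent.E8helper83.WS.Win2

/-!
Library E8helper83.WS (helper83): the uniform bound for Chowla sums of every order, windowed form (adapted from
`Pool.Agent.Y958.U.main` of helper958): below every large `M` there is a good scale `M / p` with `p` bounded.
-/

set_option autoImplicit false

namespace Pool.Agent.E8helper83.WS

open Finset Filter Topology
open Pool.Agent.TH112.BL (Bd QD win)
open Pool.Agent.TH823.MRS (ExpoSmall FlipAll)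
open Pool.Agent.Y958.U
open Pool.Agent.Y958.TC (NM ind Bd_ind ind_nonneg m_class m_sum m_shift um Av Av_bd um_tendsto sS
  sS_tendsto div_atTop per_mod sum_inv_large exists_ultra alp alp_f alp_mod Df b1 bad_sum dec QDp)

theorem main_win (hPW : S_PW) (hC : S_CUBE) (hB : S_BOX) (hALG : S_ALG) (d : ℕ) :
    ∃ c : ℝ, 0 < c ∧ c < 1 ∧ ∀ f : ℕ → ℤ, (∀ n, |f n| ≤ 1) → FlipAll f →
      ExpoSmall (fun n => (f n : ℂ)) →
      ∀ (V : ℕ → Prop) (A : ℕ), 1 ≤ A → (∀ n, V (n + A) ↔ V n) → 0 < dv V A →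
      ∀ (k : ℕ) (x e : Fin k → ℕ), Function.Injective x → (∀ i, e i = 1 ∨ e i = 2) →
        (univ.filter (fun i => e i = 1)).card = d + 1 →
        ∃ P M₀ : ℕ, ∀ M : ℕ, M₀ ≤ M → ∃ p : ℕ, 1 ≤ p ∧ p ≤ P ∧
          |Av (M / p) (fun n => ind V n * ∏ i, (f (n + x i) : ℝ) ^ e i)| ≤ (1 - c) * dv V A := by
  classical
  obtain ⟨L, hL, hCB⟩ := cb hC hB d (1 / 4) (by norm_num)
  obtain ⟨Mc, hMc⟩ := hALG d L
  set c : ℝ := 1 / (16 * ((Mc : ℝ) + 1)) with hc
  have hc0 : 0 < c := by positivity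
  have hc1 : c ≤ 1 / 16 := by
    rw [hc]
    apply one_div_le_one_div_of_le (by norm_num)
    have : (0 : ℝ) ≤ Mc := Nat.cast_nonneg _
    linarith
  refine ⟨c, hc0, by linarith, fun f hb hf hE V A hA hV hv k x e hx he hcard => ?_⟩
  by_contra hcon
  push Not at hcon
  set ψ : ℕ → ℝ := fun n => ind V n * ∏ i, (f (n + x i) : ℝ) ^ e i with hψd
  set E : Set ℕ := {N | (1 - c) * dv V A < |Av N ψ|} with hEd
  set emb := (univ.filter (fun i => e i = 1)).orderEmbOfFin hcard with hembd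
  have hemb : Function.Injective emb := emb.injective
  have himg : univ.image emb = univ.filter (fun i => e i = 1) :=
    Finset.image_orderEmbOfFin_univ _ hcard
  set x' : Fin (d + 1) → ℤ := fun j => (x (emb j) : ℤ) with hx'd
  have hx' : Function.Injective x' := by
    intro a b hab
    simp only [hx'd, Nat.cast_inj] at hab
    exact hemb (hx hab)
  obtain ⟨R, hR1, hAR, G0, hG0, hAlg⟩ := hMc A hA x' hx'
  obtain ⟨N₀, hN0⟩ := hCB A hA G0 hG0
  set v : ℝ := dv V A with hvd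
  have hv1 : v ≤ 1 := by
    rw [hvd]
    unfold dv
    have hA0 : (0 : ℝ) < A := by exact_mod_cast hA
    rw [div_le_one hA0]
    exact_mod_cast (card_filter_le _ _).trans (by rw [card_range])
  set κ : ℝ := c * v / 100 with hκd
  have hκ0 : 0 < κ := by positivity
  have hκ1 : κ ≤ 1 / 4 := by
    rw [hκd]
    nlinarith
  obtain ⟨P₁, hP₁⟩ := count A hA κ hκ0 N₀
  obtain ⟨P₀, hP₀⟩ := hPW A hA κ hκ0 (by linarith)
  have hφA : (1 : ℝ) ≤ A.totient := by exact_mod_cast Nat.totient_pos.2 hA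
  set ε : ℝ := κ ^ 2 / (64 * (A.totient : ℝ)) with hεd
  have hε0 : 0 < ε := by positivity
  have hfr : ∀ n, |(f n : ℝ)| ≤ 1 := by
    intro n; exact_mod_cast hb n
  haveI : NeZero A := ⟨by omega⟩
  set E' : Set ℕ := E2 f V A R (v / 8) with hE'd
  -- the windowed two point theorem for the finitely many weights
  obtain ⟨J2, M2, hwin2⟩ := two_win hPW f hb hf hE R hR1 A hA (range A) (fun a n => ind V (n + a))
    (by
      intro a _ n
      unfold Pool.Agent.Y958.TC.ind
      split_ifs <;> norm_num)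
    (by
      intro a _ n
      apply ind_at
      rw [show n + A + a = n + a + A by ring]
      exact hV (n + a)) (v / 8) (by positivity) (1 / 10) (by norm_num) (by norm_num)
  set η : ℝ := (ε / 30) * ε / 3 with hη
  have hη0 : 0 < η := by positivity
  have hlim : Tendsto (fun i : ℕ => (i : ℝ) / 2 ^ i) atTop (𝓝 0) := by
    have := tendsto_pow_const_div_const_pow_of_one_lt 1 (show (1 : ℝ) < 2 by norm_num)
    simpa using this
  have hlim2 : Tendsto (fun i : ℕ => (6 * k : ℝ) / 2 ^ i) atTop (𝓝 0) := by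
    have h1 := tendsto_pow_const_div_const_pow_of_one_lt 0 (show (1 : ℝ) < 2 by norm_num)
    have h2 := h1.const_mul (6 * k : ℝ)
    simp only [pow_zero, mul_zero] at h2
    refine h2.congr fun i => ?_
    ring
  obtain ⟨I₂, hI₂⟩ := eventually_atTop.1 (hlim.eventually_lt_const hη0)
  obtain ⟨I₃, hI₃⟩ := eventually_atTop.1 (hlim2.eventually_lt_const hε0)
  set i₀ : ℕ := I₂ + I₃ + P₀ + P₁ + A + 1 with hi₀
  set cW : ℕ := 2 * (1 + ∑ i, x i) with hcW
  set B : ℝ := cW * Real.log (Fintype.card (SignType × ZMod A)) / η with hBd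
  obtain ⟨i₁, hi₁, hS⟩ := sum_inv_large i₀ (by omega) B
  obtain ⟨𝓤, hU, hmem⟩ := exists_ultra {M : ℕ | M ∉ E' ∧ ∀ p : ℕ, 1 ≤ p → p ≤ 2 ^ i₁ → M / p ∈ E}
    (fun M₀ => by
      obtain ⟨M, hM1, hM2⟩ := hcon (2 ^ i₁ * (2 * 4 ^ J2)) (M2 + (M₀ + 1) * (2 * 4 ^ J2))
      obtain ⟨j, p, hj1, hjJ, hp1, hp2, hp3⟩ := hwin2 M ((Nat.le_add_right _ _).trans hM1)
      have h4 : 4 ^ j ≤ 4 ^ J2 := Nat.pow_le_pow_right (by norm_num) hjJ
      have hp0 : 1 ≤ p := lt_of_le_of_lt (Nat.zero_le _) hp1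
      have hpJ : p ≤ 2 * 4 ^ J2 := by
        have h4r : (4 : ℝ) ^ j ≤ 4 ^ J2 := by exact_mod_cast h4
        have : (p : ℝ) ≤ ((2 * 4 ^ J2 : ℕ) : ℝ) := by
          push_cast
          have h0 : (0 : ℝ) < 4 ^ j := by positivity
          linarith
        exact_mod_cast this
      refine ⟨M / p, ?_, ?_, ?_⟩
      · rw [Nat.le_div_iff_mul_le (by omega)]
        calc M₀ * p ≤ (M₀ + 1) * (2 * 4 ^ J2) := Nat.mul_le_mul (by omega) hpJ
          _ ≤ M := (Nat.le_add_left _ _).trans hM1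
      · rintro ⟨a, ha, h5⟩
        exact absurd (hp3 a ha) (not_le.2 h5)
      · intro p' hp'1 hp'2
        rw [Nat.div_div_eq_div_mul]
        have h6 : 1 ≤ p * p' := Nat.one_le_iff_ne_zero.2 (Nat.mul_ne_zero (by omega) (by omega))
        have h7 : p * p' ≤ 2 ^ i₁ * (2 * 4 ^ J2) := by
          rw [mul_comm p p']
          exact Nat.mul_le_mul hp'2 hpJ
        exact hM2 (p * p') h6 h7)
  have hψ : ∀ n, |ψ n| ≤ 1 := by
    intro n
    have h1 : |ind V n| ≤ 1 := by unfold Pool.Agent.Y958.TC.ind; split_ifs <;> norm_num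
    rw [hψd]
    simp only
    rw [abs_mul]
    calc |ind V n| * |∏ i, (f (n + x i) : ℝ) ^ e i| ≤ 1 * 1 :=
          mul_le_mul h1 (prod_le f hb e _) (abs_nonneg _) zero_le_one
      _ = 1 := one_mul 1
  have hw0 : ∀ i, ∀ p ∈ QD i (i + 1), 0 ≤ Real.log (p : ℝ) / 2 ^ i := fun i p _ =>
    div_nonneg (Real.log_natCast_nonneg _) (by positivity)
  have hbad := bad_sum (um 𝓤 hU) (alp f A) cW η hη0 i₀ i₁ (by omega)
  -- a good scale with a prime `p₀` such that `M / p₀` is exceptional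
  have hex : ∃ i ∈ Ico i₀ i₁, Df (um 𝓤 hU) (alp f A) b1 () cW i ≤ η * 2 ^ i / i ∧
      ∃ p₀ ∈ QD i (i + 1), {M : ℕ | M / p₀ ∈ E} ∈ (𝓤 : Filter ℕ) := by
    have h1 : ∃ i ∈ Ico i₀ i₁, Df (um 𝓤 hU) (alp f A) b1 () cW i ≤ η * 2 ^ i / i := by
      by_contra hno
      push Not at hno
      have h2 : ∑ i ∈ Ico i₀ i₁, (1 : ℝ) / i ≤
          ∑ i ∈ (Ico i₀ i₁).filter (fun i => ¬ Df (um 𝓤 hU) (alp f A) b1 () cW i ≤ η * 2 ^ i / i), (1 : ℝ) / i := by
        apply sum_le_sum_of_subset_of_nonneg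
        · intro i hi
          rw [mem_filter]
          exact ⟨hi, not_le.2 (hno i hi)⟩
        · intro i _ _
          positivity
      linarith
    obtain ⟨i, hi, hDf⟩ := h1
    refine ⟨i, hi, hDf, ?_⟩
    obtain ⟨p₀, hp1, hp2, hp3⟩ := Nat.exists_prime_lt_and_le_two_mul (2 ^ i) (by positivity)
    refine ⟨p₀, ?_, ?_⟩
    · unfold QD
      rw [mem_filter, mem_Ioc]
      refine ⟨⟨hp2, ?_⟩, hp1⟩
      rw [pow_succ, mul_comm]
      exact hp3
    · filter_upwards [hmem] with M hM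
      refine hM.2 p₀ hp1.one_le ?_
      rw [mem_Ico] at hi
      calc p₀ ≤ 2 * 2 ^ i := hp3
        _ = 2 ^ (i + 1) := by rw [pow_succ, mul_comm]
        _ ≤ 2 ^ i₁ := Nat.pow_le_pow_right (by norm_num) (by omega)
  obtain ⟨i, hi, hDf, p₀, hp₀, hmem0⟩ := hex
  rw [mem_Ico] at hi
  have hip : i < 2 ^ i := Nat.lt_two_pow_self
  -- the limit at `p₀`
  have hs0 : (1 - c) * v ≤ |sS 𝓤 ψ p₀| := by
    apply ge_of_tendsto (sS_tendsto 𝓤 hψ p₀).abs
    filter_upwards [hmem0] with M hM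
    exact le_of_lt hM
  obtain ⟨P, hP1, hP2, hPw⟩ := window κ hκ0 hκ1 i p₀ hp₀
  set Pset : Finset ℕ := (Ioc P ⌊(1 + κ) * P⌋₊).filter (fun p => p.Prime ∧ p % A = 1 % A) with hPset
  have hPsub : Pset ⊆ QD i (i + 1) := by
    intro p hp
    rw [hPset, mem_filter] at hp
    unfold QD
    rw [mem_filter]
    exact ⟨(hPw p hp.1).1, hp.2.1⟩
  have hPc := hP₀ P (by omega)
  set μ := um 𝓤 hU with hμ
  set s : ℝ := ∏ i, (-1 : ℝ) ^ e i with hs
  have hs1 : |s| = 1 := by
    rw [hs, abs_prod]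
    apply prod_eq_one
    intro i _
    rw [abs_pow, abs_neg, abs_one, one_pow]
  have hdec := dec 𝓤 hU (alp f A) cW hε0 i (by omega) (hI₂ i (by omega)) hDf (Gp f V x e)
    (Gp_le f hb V x e) (by
      intro p hp n n' hwin j hj
      have hp2 : p ≤ 2 ^ (i + 1) := by
        unfold QD at hp
        rw [mem_filter, mem_Ioc] at hp
        exact hp.1.2
      have hidx : ∀ t, t < cW * 2 ^ i → alp f A (n + t) = alp f A (n' + t) := by
        intro t ht
        exact congrFun hwin ⟨t, ht⟩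
      have hbd : p * (1 + ∑ i, x i) ≤ cW * 2 ^ i := by
        have h3 : p * (1 + ∑ i, x i) ≤ 2 ^ (i + 1) * (1 + ∑ i, x i) := Nat.mul_le_mul_right _ hp2
        have h4 : 2 ^ (i + 1) * (1 + ∑ i, x i) = cW * 2 ^ i := by rw [hcW, pow_succ]; ring
        omega
      have h5 : p * (1 + ∑ i, x i) = p + p * ∑ i, x i := by ring
      have h2 : j < cW * 2 ^ i := by omega
      unfold Gp
      congr 1
      · apply ind_at
        apply V_congr hV
        exact alp_mod (hidx j h2)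
      · apply prod_congr rfl
        intro l _
        have h1 : j + p * x l < cW * 2 ^ i := by
          have h6 : x l ≤ ∑ i, x i := single_le_sum (f := x) (fun _ _ => Nat.zero_le _) (mem_univ l)
          have h7 : p * x l ≤ p * ∑ i, x i := Nat.mul_le_mul_left _ h6
          omega
        have e2 := alp_f hb (hidx (j + p * x l) h1)
        rw [add_assoc n j, e2, add_assoc n' j])
    (univ : Finset (Fin k)) x s hs1.le ψ hψ Pset hPsub (by
      intro p hp m hm
      rw [hPset, mem_filter] at hp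
      unfold Gp
      rw [hψd]
      simp only
      have e1 : ind V (p * m) = ind V m := by
        apply ind_at
        apply V_congr hV
        have h3 : p ≡ 1 [MOD A] := hp.2.2
        have := Nat.ModEq.mul_right m h3
        rwa [one_mul] at this
      rw [e1]
      have e2 : ∏ i, (f (p * m + p * x i) : ℝ) ^ e i = s * ∏ i, (f (m + x i) : ℝ) ^ e i := by
        rw [hs, ← prod_mul_distrib]
        apply prod_congr rfl
        intro l _
        rw [show p * m + p * x l = p * (m + x l) by ring, hf p (m + x l) hp.2.1 (hm l (mem_univ l)),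
          ← mul_pow]
        push_cast
        ring
      rw [e2]
      ring)
  rw [card_univ, Fintype.card_fin] at hdec
  have hI3 := hI₃ i (by omega)
  have hmany := many_good hκ0 hφA (le_of_eq hεd) i P (by omega) hP1 hP2 Pset hPsub hPc
    (fun p => |s * sS 𝓤 ψ p - μ.m (Gp f V x e p)|) (fun p => abs_nonneg _) (by linarith)
  set Good : Finset ℕ := Pset.filter (fun p => |s * sS 𝓤 ψ p - μ.m (Gp f V x e p)| ≤ κ) with hGood
  obtain ⟨N, N₁, T, hN, hT1, hT2, hT3, hT4⟩ := hP₁ P (by omega) Good (by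
    intro p hp
    rw [hGood, mem_filter, hPset, mem_filter] at hp
    exact ⟨hp.1.1, hp.1.2.1, hp.1.2.2⟩) hmany
  obtain ⟨r, j, hj, hω⟩ := hN0 N hN N₁ T hT1 hT2 hT4
  choose n hn using hω
  set ρ : ℝ := 2 * c * v with hρ
  have hρ0 : 0 ≤ ρ := by positivity
  have hφT : Tri (fun z : ℤ => f z.toNat) := fun z => tri_f f hb _
  -- the relation of a good prime
  have hrel : ∀ p ∈ Good, HH μ (fun z => f z.toNat) V ρ (PP x' (p : ℤ)) 1 := by
    intro p hp
    rw [hGood, mem_filter] at hp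
    have hpI : p ∈ Ioc P ⌊(1 + κ) * P⌋₊ := (mem_filter.1 hp.1).1
    have hpp : p.Prime := QDp (hPsub hp.1)
    have hwin := (hPw p hpI).2
    have h1 : |sS 𝓤 ψ p₀| - 2 * κ ≤ |sS 𝓤 ψ p| := by
      have h2 : |sS 𝓤 ψ p₀ - sS 𝓤 ψ p| ≤ 2 * κ := by
        rcases le_total p₀ p with h3 | h3
        · refine (sS_cont 𝓤 hU hψ (QDp hp₀).pos h3).trans ?_
          have := hwin.1 h3
          linarith
        · rw [abs_sub_comm]
          refine (sS_cont 𝓤 hU hψ hpp.pos h3).trans ?_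
          have := hwin.2 h3
          linarith
      have := abs_sub_abs_le_abs_sub (sS 𝓤 ψ p₀) (sS 𝓤 ψ p)
      linarith
    have h2 : |sS 𝓤 ψ p| - κ ≤ |μ.m (Gp f V x e p)| := by
      have h3 := abs_sub_abs_le_abs_sub (s * sS 𝓤 ψ p) (μ.m (Gp f V x e p))
      rw [abs_mul, hs1, one_mul] at h3
      linarith [hp.2]
    apply rel_of_mean μ f hb V x e he hx emb hemb himg p hpp.one_le ρ
    rw [m_V μ hA hV, ← hvd, hρ]
    have h4 : 3 * κ ≤ c * v := by
      rw [hκd]
      have : 0 < c * v := by positivity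
      linarith
    nlinarith
  obtain ⟨y, hy⟩ := hAlg r j hj n (HH μ (fun z => f z.toNat) V ρ)
    (fun g g' a a' => HH_add μ _ V ρ hφT g g' a a')
    (fun g a t ht hg => HH_T μ _ V ρ A hV g a t ht hg)
    (fun g a a' haa hg => HH_mono μ _ V ρ hρ0 g a a' haa hg) (by
      intro ω ζ
      have h1 := hn ω ζ
      obtain ⟨p, hp, hpe⟩ := hT3 _ h1
      unfold sr at hpe
      rw [hpe]
      exact hrel p hp)
  have htwo := HH_two μ _ V ρ hφT y R hR1 Mc hy
  have hbound := two_bound 𝓤 hU f hb V A R hA hV (v / 8) (by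
    filter_upwards [hmem] with M hM
    exact hM.1) y
  rw [m_V μ hA hV, ← hvd] at htwo
  have h9 : v - 2 * (Mc * ρ) ≤ v / 8 := htwo.trans hbound
  have h10 : (Mc : ℝ) * c ≤ 1 / 16 := by
    rw [hc, mul_one_div, div_le_iff₀ (by positivity)]
    have : (0 : ℝ) ≤ Mc := Nat.cast_nonneg _
    linarith
  rw [hρ] at h9
  nlinarith

end Pool.Agent.E8helper83.WS
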