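import Pool.Agent.H375R2.Frob

/-!
Library E8helper83.WS (helper83): the recursion behind `Pool.Agent.H375R2.NN_lower`, kept in full.
-/

set_option autoImplicit false

namespace Pool.Agent.E8helper83.WS

open Finset ArithmeticFunction
open Pool.Agent.H375R2

/-- the excess of the number of `n ≤ x` with `F = e` over `x / (2 s + 1)` -/
noncomputable def ex (S : Finset ℕ) (e : ℤ) (x : ℕ) : ℝ :=
  (NN S e x : ℝ) - (x : ℝ) / (2 * (max (ev S) (od S) : ℕ) + 1)

/-- one step of the recursion -/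
theorem ex_rec (S : Finset ℕ) (hne : S.Nonempty) (e : ℤ)
    (he : (Odd S.card ∧ (e = 1 ∨ e = -1)) ∨ (Even S.card ∧ e = 1)) (x : ℕ) :
    ex S e (x / 4) / ((max (ev S) (od S) : ℕ) : ℝ) ^ 2 - (2 * ((∑ h ∈ S, h : ℕ) : ℝ) + 2) ≤ ex S e x := by
  unfold ex
  set s : ℕ := max (ev S) (od S) with hs
  set H : ℕ := ∑ h ∈ S, h with hH
  have hs1 : 1 ≤ s := by
    obtain ⟨h, hh⟩ := hne
    rcases Nat.mod_two_eq_zero_or_one h with h0 | h0
    · have : 1 ≤ ev S := Finset.card_pos.mpr ⟨h, by simp [hh, h0]⟩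
      exact le_trans this (le_max_left _ _)
    · have : 1 ≤ od S := Finset.card_pos.mpr ⟨h, by simp [hh, h0]⟩
      exact le_trans this (le_max_right _ _)
  have hsR : (1 : ℝ) ≤ s := by exact_mod_cast hs1
  -- the function f
  set f : ℕ → ℝ := fun y => (NN S e y : ℝ) - (y : ℝ) / (2 * s + 1) with hf
  set G : ℕ → ℝ := fun y => f y + s * f (2 * y) with hG
  have hGval : ∀ y, G y = (NN S e y : ℝ) + s * (NN S e (2 * y) : ℝ) - y := by
    intro y
    simp only [hG, hf]
    push_cast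
    field_simp
    ring
  have hGmono : ∀ a b, a ≤ b → G a - H ≤ G b := by
    intro a b hab
    rw [hGval, hGval]
    have hw := window S e he a b
    rw [← hs, ← hH] at hw
    have h1 := NN_split S e hab
    have h2 := NN_split S e (show 2 * a ≤ 2 * b by omega)
    have hw' : (b : ℝ) - a ≤ (∑ n ∈ Ioc a b, cc S e n : ℕ)
      + s * (∑ n ∈ Ioc (2 * a) (2 * b), cc S e n : ℕ) + H := by
      have : ((b - a : ℕ) : ℝ) = (b : ℝ) - a := by rw [Nat.cast_sub hab]
      rw [← this]
      exact_mod_cast hw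
    rw [h1, h2]
    push_cast at hw' ⊢
    nlinarith [hw']
  have hG0 : G 0 = 0 := by rw [hGval]; simp [NN]
  have hHnn : (0 : ℝ) ≤ H := Nat.cast_nonneg _
  -- main recursion
  set y := x / 2 with hy
  set z := x / 4 with hz
  have hzy : z = y / 2 := by omega
  have hx : x = 2 * y ∨ x = 2 * y + 1 := by omega
  have hyz : y = 2 * z ∨ y = 2 * z + 1 := by omega
  have hden : (0 : ℝ) < 2 * s + 1 := by positivity
  have hden1 : (1 : ℝ) / (2 * s + 1) ≤ 1 := by
    rw [div_le_one hden]; linarith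
  have hden0 : (0 : ℝ) ≤ 1 / (2 * s + 1) := by positivity
  have f1 : f x ≥ f (2 * y) - 1 := by
    simp only [hf]
    rcases hx with h | h
    · rw [h]; linarith
    · have := NN_mono S e (show 2 * y ≤ x by omega)
      have h' : (NN S e (2 * y) : ℝ) ≤ NN S e x := by exact_mod_cast this
      have : ((x : ℕ) : ℝ) = ((2 * y : ℕ) : ℝ) + 1 := by rw [h]; push_cast; ring
      rw [this, add_div]
      linarith
  have f2 : f y ≤ f (2 * z) + 1 := by
    simp only [hf]
    rcases hyz with h | h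
    · rw [h]; linarith
    · have := NN_succ_le S e (2 * z)
      rw [← h] at this
      have h' : (NN S e y : ℝ) ≤ NN S e (2 * z) + 1 := by exact_mod_cast this
      have : ((y : ℕ) : ℝ) = ((2 * z : ℕ) : ℝ) + 1 := by rw [h]; push_cast; ring
      rw [this, add_div]
      linarith
  have g1 : (s : ℝ) * f (2 * y) = G y - f y := by simp only [hG]; ring
  have g2 : (s : ℝ) * f (2 * z) = G z - f z := by simp only [hG]; ring
  have g3 : G z - H ≤ G y := hGmono z y (by omega)
  have g4 : -(H : ℝ) ≤ G z := by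
    have := hGmono 0 z (Nat.zero_le _)
    rw [hG0] at this; linarith
  -- combine
  have spos : (0 : ℝ) < s := by linarith
  have k1 : (s : ℝ) * (f (2 * y)) ≥ G y - f (2 * z) - 1 := by linarith
  have k2 : f (2 * z) = (G z - f z) / s := by
    field_simp
    linarith
  have k3 : (s : ℝ) * (f (2 * y)) ≥ G z - H - (G z - f z) / s - 1 := by
    rw [← k2]; linarith
  have k4 : G z - (G z) / s ≥ -H := by
    have : G z - (G z) / s = G z * (1 - 1 / s) := by ring
    rw [this]
    have h1s : (1 : ℝ) / s ≤ 1 := by rw [div_le_one spos]; exact hsR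
    have h0s : (0 : ℝ) ≤ 1 / s := by positivity
    nlinarith
  have k5 : (s : ℝ) * (f (2 * y)) ≥ -(2 * H + 1) + f z / s := by
    have : (G z - f z) / s = G z / s - f z / s := by ring
    rw [this] at k3
    linarith
  have k6 : f (2 * y) ≥ -(2 * H + 1) + f z / s ^ 2 := by
    have h1 : (s : ℝ) * (-(2 * H + 1) + f z / s ^ 2) ≤ -(2 * H + 1) + f z / s := by
      have e1 : (s : ℝ) * (-(2 * H + 1) + f z / s ^ 2) = -(s * (2 * H + 1)) + f z / s := by
        field_simp
      rw [e1]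
      nlinarith
    exact le_of_mul_le_mul_left (h1.trans k5) spos
  linarith

/-- the iterated recursion -/
theorem ex_iter (S : Finset ℕ) (hne : S.Nonempty) (e : ℤ)
    (he : (Odd S.card ∧ (e = 1 ∨ e = -1)) ∨ (Even S.card ∧ e = 1)) (j : ℕ) : ∀ x : ℕ,
    ex S e (x / 4 ^ j) / ((max (ev S) (od S) : ℕ) : ℝ) ^ (2 * j) - j * (2 * ((∑ h ∈ S, h : ℕ) : ℝ) + 2) ≤
      ex S e x := by
  have hs1 : 1 ≤ max (ev S) (od S) := by
    obtain ⟨h, hh⟩ := hne
    rcases Nat.mod_two_eq_zero_or_one h with h0 | h0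
    · have : 1 ≤ ev S := Finset.card_pos.mpr ⟨h, by simp [hh, h0]⟩
      exact le_trans this (le_max_left _ _)
    · have : 1 ≤ od S := Finset.card_pos.mpr ⟨h, by simp [hh, h0]⟩
      exact le_trans this (le_max_right _ _)
  have hrec := ex_rec S hne e he
  set s : ℕ := max (ev S) (od S) with hs
  have hsR : (1 : ℝ) ≤ (s : ℝ) := by exact_mod_cast hs1
  set C : ℝ := 2 * ((∑ h ∈ S, h : ℕ) : ℝ) + 2 with hC
  have hC0 : 0 ≤ C := by positivity
  induction j with
  | zero => intro x; simp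
  | succ j ih =>
    intro x
    have h1 := ih (x / 4)
    have h2 := hrec x
    rw [Nat.div_div_eq_div_mul, show 4 * 4 ^ j = 4 ^ (j + 1) by rw [pow_succ]; ring] at h1
    have hs2 : (1 : ℝ) ≤ (s : ℝ) ^ 2 := one_le_pow₀ hsR
    have h3 : (ex S e (x / 4 ^ (j + 1)) / (s : ℝ) ^ (2 * j) - j * C) / (s : ℝ) ^ 2 ≤ ex S e (x / 4) / (s : ℝ) ^ 2 :=
      div_le_div_of_nonneg_right h1 (by positivity)
    have h4 : (ex S e (x / 4 ^ (j + 1)) / (s : ℝ) ^ (2 * j) - j * C) / (s : ℝ) ^ 2 =
        ex S e (x / 4 ^ (j + 1)) / (s : ℝ) ^ (2 * (j + 1)) - j * C / (s : ℝ) ^ 2 := by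
      rw [sub_div, div_div, ← pow_add, show 2 * j + 2 = 2 * (j + 1) by ring]
    have h5 : (j : ℝ) * C / (s : ℝ) ^ 2 ≤ j * C := div_le_self (by positivity) hs2
    push_cast
    linarith

end Pool.Agent.E8helper83.WS
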