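import Pool.Agent.E8helper83.WS.Poly

/-!
Library E8helper83.WS (helper83): the same for polynomials all of whose roots are rational.
-/

set_option autoImplicit false

namespace Pool.Agent.E8helper83.WS

open Finset Polynomial

theorem split_final (f : ℤ[X]) (hdeg : 1 ≤ f.natDegree) (hs : (f.map (Int.castRingHom ℚ)).Splits)
    (hsq : Squarefree (f.map (Int.castRingHom ℚ))) (q : ℕ) (hq : 1 ≤ q) (r : ℤ) :
    ∃ (c : ℝ) (X₀ : ℕ), 0 < c ∧ ∀ M : ℕ, X₀ ≤ M →
      |∑ v ∈ (Icc (-(M : ℤ)) M).filter (fun v => v ≡ r [ZMOD q]), lamZ (f.eval v)| ≤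
        (1 - c) * (((Icc (-(M : ℤ)) M).filter (fun v => v ≡ r [ZMOD q])).card : ℝ) := by
  classical
  set F : ℚ[X] := f.map (Int.castRingHom ℚ) with hF
  have hinj : Function.Injective (Int.castRingHom ℚ) := (Int.castRingHom ℚ).injective_int
  have hnd : F.roots.Nodup := nodup_roots (PerfectField.separable_iff_squarefree.2 hsq)
  set L : List ℚ := F.roots.toList with hL
  have hLnd : L.Nodup := by
    rw [← Multiset.coe_nodup, hL, Multiset.coe_toList]
    exact hnd
  have hlen : L.length = f.natDegree := by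
    rw [hL, Multiset.length_toList, ← hs.natDegree_eq_card_roots, hF, natDegree_map_eq_of_injective hinj]
  set ρ : Fin L.length → ℚ := fun i => L.get i with hρ
  have hρinj : Function.Injective ρ := List.nodup_iff_injective_get.1 hLnd
  set a : Fin L.length → ℤ := fun i => ((ρ i).den : ℤ) with ha
  set b : Fin L.length → ℤ := fun i => -(ρ i).num with hb
  have ha0 : ∀ i, a i ≠ 0 := fun i => by
    simp only [ha]
    exact_mod_cast (ρ i).den_ne_zero
  have hab : ∀ i j, i ≠ j → a i * b j ≠ a j * b i := by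
    intro i j hij h
    apply hij
    apply hρinj
    simp only [ha, hb] at h
    rw [Rat.eq_iff_mul_eq_mul]
    linear_combination h
  obtain ⟨c, X₀, hc, H⟩ := two_sided L.length (by omega) f.leadingCoeff a b ha0 hab q hq r
  refine ⟨c, X₀, hc, fun M hM => ?_⟩
  refine le_trans (le_of_eq ?_) (H M hM)
  set D : ℤ := ∏ i, a i with hD
  have hD0 : D ≠ 0 := prod_ne_zero_iff.2 fun i _ => ha0 i
  have hval : ∀ v : ℤ, D * f.eval v = f.leadingCoeff * ∏ i, (a i * v + b i) := by
    intro v
    have h1 : ((f.eval v : ℤ) : ℚ) = F.eval (v : ℚ) := by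
      rw [hF, eval_intCast_map]
      simp
    have h2 : F = C F.leadingCoeff * (F.roots.map (fun a => X - C a)).prod := hs.eq_prod_roots
    have h3 : (F.roots.map (fun a => X - C a)).prod = ∏ i : Fin L.length, (X - C (ρ i)) := by
      rw [← Multiset.coe_toList F.roots, ← hL, Multiset.map_coe, Multiset.prod_coe]
      rw [← List.prod_ofFn]
      congr 1
      conv_lhs => rw [← List.ofFn_get L]
      rw [List.map_ofFn]
      rfl
    have hlc : F.leadingCoeff = ((f.leadingCoeff : ℤ) : ℚ) := by
      rw [hF, leadingCoeff_map_of_injective hinj]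
      rfl
    have h4 : F.eval (v : ℚ) = (f.leadingCoeff : ℚ) * ∏ i, ((v : ℚ) - ρ i) := by
      conv_lhs => rw [h2, h3]
      rw [eval_mul, eval_C, eval_prod, hlc]
      simp
    have h5 : ((D * f.eval v : ℤ) : ℚ) = ((f.leadingCoeff * ∏ i, (a i * v + b i) : ℤ) : ℚ) := by
      push_cast
      rw [h1, h4]
      have h6 : ∏ i, ((a i : ℤ) : ℚ) * ((v : ℚ) - ρ i) = ∏ i, (((a i : ℤ) : ℚ) * v + ((b i : ℤ) : ℚ)) := by
        apply prod_congr rfl
        intro i _
        simp only [ha, hb]
        push_cast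
        have h7 : ((ρ i).den : ℚ) * ρ i = (ρ i).num := by
          rw [mul_comm]
          exact Rat.mul_den_eq_num (ρ i)
        linear_combination -h7
      rw [hD]
      push_cast
      rw [← h6, prod_mul_distrib]
      ring
    exact_mod_cast h5
  have hlamD : |lamZ D| = 1 := by
    unfold lamZ
    rw [if_neg hD0, abs_pow, abs_neg, abs_one, one_pow]
  have h1 : ∑ v ∈ (Icc (-(M : ℤ)) M).filter (fun v => v ≡ r [ZMOD q]),
      lamZ (f.leadingCoeff * ∏ i, (a i * v + b i)) =
      lamZ D * ∑ v ∈ (Icc (-(M : ℤ)) M).filter (fun v => v ≡ r [ZMOD q]), lamZ (f.eval v) := by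
    rw [mul_sum]
    apply sum_congr rfl
    intro v _
    rw [← lamZ_mul, hval]
  rw [h1, abs_mul, hlamD, one_mul]

end Pool.Agent.E8helper83.WS
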